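import Pool.Agent.Y882.Loc
import Pool.Agent.Y882.Core
import Pool.Agent.H305R2.MertensE
import Pool.Agent.W23.UBe

/-! The density of the sieve for `n - p` and the singular series. -/

set_option autoImplicit false

open Finset Filter Topology

namespace Pool.Agent.T2q87.G5

open Pool.Agent.W23.DC
open Pool.Agent.Y882
open Pool.Agent.W23.UB (C2 c2f C2_hasProd C2_pos sing)

/-- the factors of the twin prime constant -/
noncomputable def cc (p : ℕ) : ℝ := 1 + (if p = 2 then 0 else -(1 / ((p : ℝ) - 1) ^ 2))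

theorem cc_tendsto : Tendsto (fun N : ℕ => ∏ p ∈ (Icc 1 N).filter Nat.Prime, cc p) atTop
    (𝓝 C2) := by
  have h1 : Tendsto (fun N : ℕ => (Finset.Icc 1 N).subtype Nat.Prime) atTop
      (atTop : Filter (Finset Nat.Primes)) := by
    apply tendsto_atTop_finset_of_monotone
    · intro a b hab x hx
      rw [Finset.mem_subtype, mem_Icc] at hx ⊢
      exact ⟨hx.1, hx.2.trans hab⟩
    · intro x
      refine ⟨x, ?_⟩
      rw [Finset.mem_subtype, mem_Icc]
      exact ⟨x.2.one_lt.le, le_rfl⟩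
  have h2 : Tendsto (fun s : Finset Nat.Primes => ∏ p ∈ s, (1 + c2f p)) atTop (𝓝 C2) := C2_hasProd
  refine (h2.comp h1).congr fun N => ?_
  rw [Function.comp]
  have h3 := Finset.prod_subtype_eq_prod_filter (s := Icc 1 N) (p := Nat.Prime) cc
  rw [← h3]
  rfl

theorem mert_tendsto : Tendsto (fun N : ℕ => (∏ p ∈ (Icc 1 N).filter Nat.Prime, (1 - 1 / (p : ℝ))) *
    Real.log N) atTop (𝓝 (Real.exp (-Real.eulerMascheroniConstant))) := by
  have h1 := (Pool.Agent.H305R2.mertens_three).inv₀ (Real.exp_pos _).ne'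
  rw [← Real.exp_neg] at h1
  refine h1.congr fun N => ?_
  rw [inv_div, div_eq_mul_inv, mul_comm, ← Finset.prod_inv_distrib]
  congr 1
  apply prod_congr rfl
  intro p _
  rw [inv_inv, one_div]

theorem PZ_Icc (Y : ℕ) (hY : 2 ≤ Y) (ζ : ℝ) (hζ0 : 0 < ζ) (hζ : ζ ≤ 1) :
    PZ Y ζ = (Icc 1 (⌈(Y : ℝ) ^ ζ⌉₊ - 1)).filter Nat.Prime := by
  have hY1 : (1 : ℝ) < Y := by exact_mod_cast hY
  have hl : 0 < Real.log Y := Real.log_pos hY1
  ext p
  unfold PZ
  rw [mem_filter, mem_filter, mem_Icc, mem_Icc]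
  constructor
  · rintro ⟨⟨h1, h2⟩, hp, h3⟩
    refine ⟨⟨h1, ?_⟩, hp⟩
    have h4 : (p : ℝ) < (Y : ℝ) ^ ζ := (tt_lt Y p ζ hY hp.pos).1 h3
    have h5 : p < ⌈(Y : ℝ) ^ ζ⌉₊ := Nat.lt_ceil.2 h4
    omega
  · rintro ⟨⟨h1, h2⟩, hp⟩
    have h5 : p < ⌈(Y : ℝ) ^ ζ⌉₊ := by omega
    have h4 : (p : ℝ) < (Y : ℝ) ^ ζ := Nat.lt_ceil.1 h5
    refine ⟨⟨h1, ?_⟩, hp, (tt_lt Y p ζ hY hp.pos).2 h4⟩
    have h6 : (Y : ℝ) ^ ζ ≤ Y := by
      calc (Y : ℝ) ^ ζ ≤ (Y : ℝ) ^ (1 : ℝ) := Real.rpow_le_rpow_of_exponent_le hY1.le hζ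
        _ = Y := Real.rpow_one _
    have h7 : (p : ℝ) < Y := h4.trans_le h6
    exact_mod_cast h7.le

/-- the fixed part of the density -/
noncomputable def AY (Y : ℕ) (ζ : ℝ) : ℝ :=
  2 * (∏ p ∈ PZ Y ζ, (1 - 1 / (p : ℝ))) * ∏ p ∈ PZ Y ζ, cc p

theorem AY_tendsto (ζ : ℝ) (hζ0 : 0 < ζ) (hζ : ζ ≤ 1) :
    Tendsto (fun Y : ℕ => AY Y ζ * (ζ * Real.log Y)) atTop
      (𝓝 (2 * Real.exp (-Real.eulerMascheroniConstant) * C2)) := by
  have hz : Tendsto (fun Y : ℕ => (Y : ℝ) ^ ζ) atTop atTop :=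
    (tendsto_rpow_atTop hζ0).comp tendsto_natCast_atTop_atTop
  have hN : Tendsto (fun Y : ℕ => ⌈(Y : ℝ) ^ ζ⌉₊ - 1) atTop atTop := by
    have h1 : Tendsto (fun Y : ℕ => ⌈(Y : ℝ) ^ ζ⌉₊) atTop atTop := tendsto_nat_ceil_atTop.comp hz
    exact (tendsto_sub_atTop_nat 1).comp h1
  have h1 := mert_tendsto.comp hN
  have h2 := cc_tendsto.comp hN
  -- the quotient of the logarithms
  have h3 : Tendsto (fun Y : ℕ => ζ * Real.log Y / Real.log ((⌈(Y : ℝ) ^ ζ⌉₊ - 1 : ℕ) : ℝ)) atTop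
      (𝓝 1) := by
    have hlog : Tendsto (fun z : ℝ => Real.log z) atTop atTop := Real.tendsto_log_atTop
    have h4 : Tendsto (fun Y : ℕ => Real.log ((Y : ℝ) ^ ζ)) atTop atTop := hlog.comp hz
    have h5 : Tendsto (fun Y : ℕ => Real.log ((Y : ℝ) ^ ζ) / (Real.log ((Y : ℝ) ^ ζ) - Real.log 2))
        atTop (𝓝 1) := by
      have h6 : Tendsto (fun t : ℝ => t / (t - Real.log 2)) atTop (𝓝 1) := by
        have h7 : Tendsto (fun t : ℝ => 1 + Real.log 2 / (t - Real.log 2)) atTop (𝓝 (1 + 0)) := by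
          apply Tendsto.const_add
          apply Tendsto.div_atTop tendsto_const_nhds
          exact tendsto_atTop_add_const_right _ _ tendsto_id
        rw [add_zero] at h7
        refine h7.congr' ?_
        filter_upwards [eventually_gt_atTop (Real.log 2)] with t ht
        have : t - Real.log 2 ≠ 0 := by linarith
        field_simp
        ring
      exact h6.comp h4
    refine tendsto_of_tendsto_of_tendsto_of_le_of_le' tendsto_const_nhds h5 ?_ ?_
    · filter_upwards [hz.eventually_ge_atTop 4, eventually_ge_atTop 2] with Y h6 h7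
      have hY1 : (1 : ℝ) < Y := by exact_mod_cast h7
      have h8 : 1 ≤ ⌈(Y : ℝ) ^ ζ⌉₊ := by
        have := Nat.le_ceil ((Y : ℝ) ^ ζ)
        have h9 : (1 : ℝ) ≤ ⌈(Y : ℝ) ^ ζ⌉₊ := by linarith
        exact_mod_cast h9
      have h9 : ((⌈(Y : ℝ) ^ ζ⌉₊ - 1 : ℕ) : ℝ) ≤ (Y : ℝ) ^ ζ := by
        rw [Nat.cast_sub h8, Nat.cast_one]
        have := Nat.ceil_lt_add_one (show (0 : ℝ) ≤ (Y : ℝ) ^ ζ by positivity)
        linarith
      have h10 : (3 : ℝ) ≤ ((⌈(Y : ℝ) ^ ζ⌉₊ - 1 : ℕ) : ℝ) := by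
        rw [Nat.cast_sub h8, Nat.cast_one]
        have := Nat.le_ceil ((Y : ℝ) ^ ζ)
        linarith
      rw [le_div_iff₀ (Real.log_pos (by linarith)), one_mul, ← Real.log_rpow (by linarith)]
      exact Real.log_le_log (by linarith) h9
    · filter_upwards [hz.eventually_ge_atTop 4, eventually_ge_atTop 2] with Y h6 h7
      have hY1 : (1 : ℝ) < Y := by exact_mod_cast h7
      have h8 : 1 ≤ ⌈(Y : ℝ) ^ ζ⌉₊ := by
        have := Nat.le_ceil ((Y : ℝ) ^ ζ)
        have h9 : (1 : ℝ) ≤ ⌈(Y : ℝ) ^ ζ⌉₊ := by linarith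
        exact_mod_cast h9
      have h10 : (Y : ℝ) ^ ζ / 2 ≤ ((⌈(Y : ℝ) ^ ζ⌉₊ - 1 : ℕ) : ℝ) := by
        rw [Nat.cast_sub h8, Nat.cast_one]
        have := Nat.le_ceil ((Y : ℝ) ^ ζ)
        linarith
      rw [← Real.log_rpow (by linarith)]
      have h11 : Real.log ((Y : ℝ) ^ ζ) - Real.log 2 ≤
          Real.log ((⌈(Y : ℝ) ^ ζ⌉₊ - 1 : ℕ) : ℝ) := by
        rw [← Real.log_div (by positivity) (by norm_num)]
        exact Real.log_le_log (by positivity) h10
      have h12 : 0 < Real.log ((Y : ℝ) ^ ζ) - Real.log 2 := by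
        have := Real.log_lt_log (by norm_num) (show (2 : ℝ) < (Y : ℝ) ^ ζ by linarith)
        linarith
      apply div_le_div_of_nonneg_left _ h12 h11
      have := Real.log_nonneg (show (1 : ℝ) ≤ (Y : ℝ) ^ ζ by linarith)
      exact this
  have h4 := ((h1.mul h2).mul h3).const_mul 2
  have e : 2 * (Real.exp (-Real.eulerMascheroniConstant) * C2 * 1) =
      2 * Real.exp (-Real.eulerMascheroniConstant) * C2 := by ring
  rw [e] at h4
  refine h4.congr' ?_
  filter_upwards [hz.eventually_ge_atTop 4, eventually_ge_atTop 2] with Y h6 h7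
  have h8 : 1 ≤ ⌈(Y : ℝ) ^ ζ⌉₊ := by
    have := Nat.le_ceil ((Y : ℝ) ^ ζ)
    have h9 : (1 : ℝ) ≤ ⌈(Y : ℝ) ^ ζ⌉₊ := by linarith
    exact_mod_cast h9
  have h10 : (3 : ℝ) ≤ ((⌈(Y : ℝ) ^ ζ⌉₊ - 1 : ℕ) : ℝ) := by
    rw [Nat.cast_sub h8, Nat.cast_one]
    have := Nat.le_ceil ((Y : ℝ) ^ ζ)
    linarith
  have h11 : Real.log ((⌈(Y : ℝ) ^ ζ⌉₊ - 1 : ℕ) : ℝ) ≠ 0 := (Real.log_pos (by linarith)).ne'
  simp only [Function.comp]
  unfold AY
  rw [PZ_Icc Y h7 ζ hζ0 hζ]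
  field_simp

/-- the exact formula -/
theorem prod_gn (P : Finset ℕ) (hP : ∀ p ∈ P, p.Prime) (h2 : 2 ∈ P) (n : ℕ) (hn : Even n) :
    ∏ p ∈ P, (1 - gn n p) = 2 * (∏ p ∈ P, (1 - 1 / (p : ℝ))) * (∏ p ∈ P, cc p) *
      ∏ p ∈ P.filter (fun p => p ∣ n ∧ 2 < p), (((p : ℝ) - 1) / ((p : ℝ) - 2)) := by
  classical
  have e1 : 2 * ∏ p ∈ P, (1 - 1 / (p : ℝ)) = ∏ p ∈ P, (if p = 2 then (1 : ℝ) else 1 - 1 / (p : ℝ)) := by
    rw [← mul_prod_erase P _ h2, ← mul_prod_erase P _ h2, if_pos rfl]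
    have : ∏ p ∈ P.erase 2, (if p = 2 then (1 : ℝ) else 1 - 1 / (p : ℝ)) =
        ∏ p ∈ P.erase 2, (1 - 1 / (p : ℝ)) := by
      apply prod_congr rfl
      intro p hp
      rw [if_neg (ne_of_mem_erase hp)]
    rw [this]
    push_cast
    ring
  have e2 : ∏ p ∈ P.filter (fun p => p ∣ n ∧ 2 < p), (((p : ℝ) - 1) / ((p : ℝ) - 2)) =
      ∏ p ∈ P, (if p ∣ n ∧ 2 < p then ((p : ℝ) - 1) / ((p : ℝ) - 2) else 1) := by
    rw [prod_filter]
  rw [e1, e2, ← prod_mul_distrib, ← prod_mul_distrib]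
  apply prod_congr rfl
  intro p hp
  have hpp := hP p hp
  unfold gn cc
  rcases Nat.lt_or_ge 2 p with h | h
  · have h3 : (3 : ℝ) ≤ p := by exact_mod_cast h
    have a1 : (p : ℝ) - 1 ≠ 0 := by linarith
    have a2 : (p : ℝ) - 2 ≠ 0 := by linarith
    have a3 : (p : ℝ) ≠ 0 := by linarith
    rw [if_neg (by omega : ¬ p = 2), if_neg (by omega : ¬ p = 2)]
    by_cases hd : p ∣ n
    · rw [if_pos hd, if_pos ⟨hd, h⟩]
      field_simp
      ring
    · rw [if_neg hd, if_neg (fun h4 => hd h4.1)]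
      field_simp
      ring
  · have h4 : p = 2 := le_antisymm h hpp.two_le
    subst h4
    rw [if_pos hn.two_dvd, if_pos rfl, if_pos rfl, if_neg (by omega)]
    norm_num

/-- the large prime factors of `n` do not matter -/
theorem big_part (ζ η : ℝ) (hζ0 : 0 < ζ) (hζ : ζ ≤ 1) (hη : 0 < η) : ∃ Y0 : ℕ, ∀ Y : ℕ, Y0 ≤ Y →
    ∀ n : ℕ, 1 ≤ n → n ≤ Y →
    ∏ p ∈ (PZ Y ζ).filter (fun p => p ∣ n ∧ 2 < p), (((p : ℝ) - 1) / ((p : ℝ) - 2)) ≤
      ∏ p ∈ n.primeFactors.filter (fun p => 2 < p), (((p : ℝ) - 1) / ((p : ℝ) - 2)) ∧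
    ∏ p ∈ n.primeFactors.filter (fun p => 2 < p), (((p : ℝ) - 1) / ((p : ℝ) - 2)) ≤
      (1 + η) * ∏ p ∈ (PZ Y ζ).filter (fun p => p ∣ n ∧ 2 < p), (((p : ℝ) - 1) / ((p : ℝ) - 2)) := by
  classical
  have ht : Tendsto (fun Y : ℕ => 2 * Real.log Y / ((Y : ℝ) ^ ζ - 2)) atTop (𝓝 0) := by
    have h1 : Tendsto (fun y : ℝ => 2 * Real.log y / (y ^ ζ - 2)) atTop (𝓝 0) := by
      have h3 : Tendsto (fun y : ℝ => Real.log y / y ^ ζ) atTop (nhds 0) :=
        (isLittleO_log_rpow_atTop hζ0).tendsto_div_nhds_zero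
      have h4 : Tendsto (fun y : ℝ => (y ^ ζ)⁻¹) atTop (nhds 0) :=
        (tendsto_rpow_atTop hζ0).inv_tendsto_atTop
      have h5 : Tendsto (fun y : ℝ => (2 * (Real.log y / y ^ ζ)) /
          (1 - 2 * (y ^ ζ)⁻¹)) atTop (nhds ((2 * 0) / (1 - 2 * 0))) :=
        (h3.const_mul 2).div ((h4.const_mul 2).const_sub 1) (by norm_num)
      rw [show (2 * 0) / (1 - 2 * (0 : ℝ)) = 0 by norm_num] at h5
      refine h5.congr' ?_
      filter_upwards [eventually_gt_atTop 0, (tendsto_rpow_atTop hζ0).eventually_gt_atTop 2]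
        with y hy hy2
      have h6 : y ^ ζ ≠ 0 := by linarith
      have h7 : y ^ ζ - 2 ≠ 0 := by linarith
      have h8 : 1 - 2 * (y ^ ζ)⁻¹ ≠ 0 := by
        intro h
        apply h7
        field_simp at h
        linarith
      field_simp
    exact h1.comp tendsto_natCast_atTop_atTop
  have ht2 : Tendsto (fun Y : ℕ => Real.exp (2 * Real.log Y / ((Y : ℝ) ^ ζ - 2))) atTop
      (𝓝 (Real.exp 0)) := (Real.continuous_exp.tendsto 0).comp ht
  rw [Real.exp_zero] at ht2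
  have ev1 := ht2.eventually_le_const (show (1 : ℝ) < 1 + η by linarith)
  have ev2 : ∀ᶠ Y : ℕ in atTop, (4 : ℝ) ≤ (Y : ℝ) ^ ζ :=
    tendsto_natCast_atTop_atTop.eventually ((tendsto_rpow_atTop hζ0).eventually_ge_atTop 4)
  obtain ⟨Y0, hY0⟩ := eventually_atTop.1 ((ev1.and ev2).and (eventually_ge_atTop 2))
  refine ⟨Y0, fun Y hY n hn hnY => ?_⟩
  obtain ⟨⟨e1, e2⟩, e3⟩ := hY0 Y hY
  have hY1 : (1 : ℝ) < Y := by exact_mod_cast e3
  have hn0 : n ≠ 0 := by omega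
  set A := (PZ Y ζ).filter (fun p => p ∣ n ∧ 2 < p) with hA
  set G := n.primeFactors.filter (fun p => 2 < p) with hG
  have hAG : A ⊆ G := by
    intro p hp
    rw [hA, mem_filter] at hp
    rw [hG, mem_filter, Nat.mem_primeFactors]
    unfold PZ at hp
    rw [mem_filter] at hp
    exact ⟨⟨hp.1.2.1, hp.2.1, hn0⟩, hp.2.2⟩
  have hfac : ∀ p ∈ G, 1 ≤ ((p : ℝ) - 1) / ((p : ℝ) - 2) := by
    intro p hp
    rw [hG, mem_filter] at hp
    have h3 : (3 : ℝ) ≤ p := by exact_mod_cast hp.2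
    rw [le_div_iff₀ (by linarith)]
    linarith
  have hA0 : 1 ≤ ∏ p ∈ A, (((p : ℝ) - 1) / ((p : ℝ) - 2)) := by
    have h0 : (∏ _p ∈ A, (1 : ℝ)) ≤ ∏ p ∈ A, (((p : ℝ) - 1) / ((p : ℝ) - 2)) :=
      Finset.prod_le_prod (fun _ _ => zero_le_one) fun p hp => hfac p (hAG hp)
    rwa [Finset.prod_const_one] at h0
  have hsplit : ∏ p ∈ G, (((p : ℝ) - 1) / ((p : ℝ) - 2)) =
      (∏ p ∈ G \ A, (((p : ℝ) - 1) / ((p : ℝ) - 2))) *
        ∏ p ∈ A, (((p : ℝ) - 1) / ((p : ℝ) - 2)) := (prod_sdiff hAG).symm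
  have hD1 : 1 ≤ ∏ p ∈ G \ A, (((p : ℝ) - 1) / ((p : ℝ) - 2)) := by
    have h0 : (∏ _p ∈ G \ A, (1 : ℝ)) ≤ ∏ p ∈ G \ A, (((p : ℝ) - 1) / ((p : ℝ) - 2)) :=
      Finset.prod_le_prod (fun _ _ => zero_le_one) fun p hp => hfac p (Finset.mem_sdiff.1 hp).1
    rwa [Finset.prod_const_one] at h0
  constructor
  · rw [hsplit]
    nlinarith
  · rw [hsplit]
    apply mul_le_mul_of_nonneg_right _ (by linarith)
    refine le_trans ?_ e1
    have hb : ∀ p ∈ G \ A, ((p : ℝ) - 1) / ((p : ℝ) - 2) ≤ Real.exp (1 / ((Y : ℝ) ^ ζ - 2)) := by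
      intro p hp
      rw [Finset.mem_sdiff] at hp
      have hpG := hp.1
      rw [hG, mem_filter, Nat.mem_primeFactors] at hpG
      have hpA : ¬ (p : ℝ) < (Y : ℝ) ^ ζ := by
        intro h
        apply hp.2
        rw [hA, mem_filter]
        refine ⟨?_, hpG.1.2.1, hpG.2⟩
        unfold PZ
        rw [mem_filter, mem_Icc]
        have := Nat.le_of_dvd (by omega) hpG.1.2.1
        exact ⟨⟨hpG.1.1.one_lt.le, by omega⟩, hpG.1.1, (tt_lt Y p ζ e3 hpG.1.1.pos).2 h⟩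
      push Not at hpA
      have h3 : ((p : ℝ) - 1) / ((p : ℝ) - 2) = 1 + 1 / ((p : ℝ) - 2) := by
        have : (p : ℝ) - 2 ≠ 0 := by linarith
        field_simp
        ring
      have h4 : 1 / ((p : ℝ) - 2) ≤ 1 / ((Y : ℝ) ^ ζ - 2) :=
        one_div_le_one_div_of_le (by linarith) (by linarith)
      have h5 := Real.add_one_le_exp (1 / ((Y : ℝ) ^ ζ - 2))
      linarith
    have hcard : ((G \ A).card : ℝ) ≤ 2 * Real.log Y := by
      have h3 : 2 ^ (G \ A).card ≤ n := by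
        calc 2 ^ (G \ A).card ≤ ∏ p ∈ G \ A, p := by
              apply Finset.pow_card_le_prod
              intro p hp
              rw [Finset.mem_sdiff, hG, mem_filter] at hp
              omega
          _ ≤ n := by
              apply Nat.le_of_dvd (by omega)
              refine dvd_trans ?_ (Nat.prod_primeFactors_dvd n)
              apply prod_dvd_prod_of_subset
              intro p hp
              rw [Finset.mem_sdiff, hG, mem_filter] at hp
              exact hp.1.1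
      have h4 : ((2 : ℝ) ^ (G \ A).card) ≤ Y := by
        have : 2 ^ (G \ A).card ≤ Y := h3.trans hnY
        exact_mod_cast this
      have h5 := Real.log_le_log (by positivity) h4
      rw [Real.log_pow] at h5
      have := Real.log_two_gt_d9
      have h6 : (0 : ℝ) ≤ (G \ A).card := Nat.cast_nonneg _
      nlinarith
    calc ∏ p ∈ G \ A, (((p : ℝ) - 1) / ((p : ℝ) - 2)) ≤
        ∏ _p ∈ G \ A, Real.exp (1 / ((Y : ℝ) ^ ζ - 2)) :=
          prod_le_prod (fun p hp => by linarith [hfac p (Finset.mem_sdiff.1 hp).1]) hb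
      _ = Real.exp ((G \ A).card * (1 / ((Y : ℝ) ^ ζ - 2))) := by
          rw [prod_const, ← Real.exp_nat_mul]
      _ ≤ Real.exp (2 * Real.log Y / ((Y : ℝ) ^ ζ - 2)) := by
          apply Real.exp_le_exp.2
          rw [mul_one_div]
          exact div_le_div_of_nonneg_right hcard (by linarith)

theorem sing_pos (n : ℕ) : 0 < sing n := by
  unfold sing
  have h0 : 0 < ∏ p ∈ n.primeFactors.filter (fun p => 2 < p), (((p : ℝ) - 1) / ((p : ℝ) - 2)) := by
    apply prod_pos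
    intro p hp
    have h3 : (3 : ℝ) ≤ p := by exact_mod_cast (mem_filter.1 hp).2
    exact div_pos (by linarith) (by linarith)
  have := C2_pos
  positivity

/-- the density of the sieve -/
theorem dens (ζ η : ℝ) (hζ0 : 0 < ζ) (hζ : ζ ≤ 1) (hη : 0 < η) : ∃ Y0 : ℕ, ∀ Y : ℕ, Y0 ≤ Y →
    ∀ n : ℕ, 1 ≤ n → n ≤ Y → Even n →
    (1 - η) * (sing n * Real.exp (-Real.eulerMascheroniConstant) / (ζ * Real.log Y)) ≤
      ∏ p ∈ PZ Y ζ, (1 - gn n p) ∧
    ∏ p ∈ PZ Y ζ, (1 - gn n p) ≤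
      (1 + η) * (sing n * Real.exp (-Real.eulerMascheroniConstant) / (ζ * Real.log Y)) := by
  have hη2 : 0 < η / 2 := by positivity
  obtain ⟨Y1, h1⟩ := big_part ζ (η / 2) hζ0 hζ hη2
  set K := 2 * Real.exp (-Real.eulerMascheroniConstant) * C2 with hK
  have hK0 : 0 < K := by
    have := C2_pos
    positivity
  have ht := AY_tendsto ζ hζ0 hζ
  have ev1 := ht.eventually_le_const (show K < (1 + η) * K by nlinarith)
  have ev2 := ht.eventually_const_le (show (1 - η / 2) * K < K by nlinarith)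
  have ev3 : ∀ᶠ Y : ℕ in atTop, (4 : ℝ) ≤ (Y : ℝ) ^ ζ :=
    tendsto_natCast_atTop_atTop.eventually ((tendsto_rpow_atTop hζ0).eventually_ge_atTop 4)
  obtain ⟨Y2, h2⟩ := eventually_atTop.1 (((ev1.and ev2).and ev3).and (eventually_ge_atTop 2))
  refine ⟨max Y1 Y2, fun Y hY n hn hnY hev => ?_⟩
  obtain ⟨b1, b2⟩ := h1 Y ((le_max_left _ _).trans hY) n hn hnY
  obtain ⟨⟨⟨c1, c2⟩, c3⟩, c4⟩ := h2 Y ((le_max_right _ _).trans hY)
  have hY1 : (1 : ℝ) < Y := by exact_mod_cast c4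
  have hl : 0 < Real.log Y := Real.log_pos hY1
  have hzl : 0 < ζ * Real.log Y := by positivity
  have hPp : ∀ p ∈ PZ Y ζ, p.Prime := by
    intro p hp
    unfold PZ at hp
    exact (mem_filter.1 hp).2.1
  have h2P : 2 ∈ PZ Y ζ := by
    unfold PZ
    rw [mem_filter, mem_Icc]
    refine ⟨⟨by norm_num, c4⟩, Nat.prime_two, (tt_lt Y 2 ζ c4 (by norm_num)).2 ?_⟩
    push_cast
    linarith
  have hform := prod_gn (PZ Y ζ) hPp h2P n hev
  have hAY : 2 * (∏ p ∈ PZ Y ζ, (1 - 1 / (p : ℝ))) * (∏ p ∈ PZ Y ζ, cc p) = AY Y ζ := rfl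
  rw [hAY] at hform
  rw [hform]
  set Bn := ∏ p ∈ (PZ Y ζ).filter (fun p => p ∣ n ∧ 2 < p), (((p : ℝ) - 1) / ((p : ℝ) - 2))
  set Gn := ∏ p ∈ n.primeFactors.filter (fun p => 2 < p), (((p : ℝ) - 1) / ((p : ℝ) - 2)) with hGn
  have hsing : sing n * Real.exp (-Real.eulerMascheroniConstant) = K * Gn := by
    unfold sing
    rw [hK]
    ring
  have hGpos : 0 < Gn := by
    have h3 := sing_pos n
    unfold sing at h3
    have := C2_pos
    by_contra hc
    push Not at hc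
    have : 2 * C2 * Gn ≤ 0 := mul_nonpos_of_nonneg_of_nonpos (by positivity) hc
    linarith
  have hBpos : 0 < Bn := by
    by_contra hc
    push Not at hc
    have : (1 + η / 2) * Bn ≤ 0 := mul_nonpos_of_nonneg_of_nonpos (by positivity) hc
    linarith
  rw [hsing]
  have hAYeq : AY Y ζ = AY Y ζ * (ζ * Real.log Y) / (ζ * Real.log Y) := by
    field_simp
  set a := AY Y ζ * (ζ * Real.log Y) with ha
  rw [hAYeq]
  constructor
  · rcases le_or_gt 1 η with h5 | h5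
    · have h6 : (1 - η) * (K * Gn / (ζ * Real.log Y)) ≤ 0 :=
        mul_nonpos_of_nonpos_of_nonneg (by linarith) (by positivity)
      have h7 : 0 ≤ a := by
        rw [ha]
        refine mul_nonneg ?_ hzl.le
        rw [← hAY]
        apply mul_nonneg (mul_nonneg (by norm_num) (prod_nonneg fun p hp => ?_))
          (prod_nonneg fun p hp => ?_)
        · have h8 : (2 : ℝ) ≤ p := by exact_mod_cast (hPp p hp).two_le
          have : 1 / (p : ℝ) ≤ 1 := by
            rw [div_le_one (by linarith)]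
            linarith
          linarith
        · unfold cc
          split_ifs with h9
          · norm_num
          · have h8 : (3 : ℝ) ≤ p := by
              have := (hPp p hp).two_le
              exact_mod_cast (by omega : 3 ≤ p)
            have : 1 / ((p : ℝ) - 1) ^ 2 ≤ 1 := by
              rw [div_le_one (by nlinarith)]
              nlinarith
            linarith
      have h8 : 0 ≤ a / (ζ * Real.log Y) * Bn := by positivity
      linarith
    · have h6 : (1 - η) * (K * Gn) ≤ a * Bn := by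
        calc (1 - η) * (K * Gn) ≤ (1 - η) * (K * ((1 + η / 2) * Bn)) := by
              apply mul_le_mul_of_nonneg_left _ (by linarith)
              exact mul_le_mul_of_nonneg_left b2 hK0.le
          _ = ((1 - η) * (1 + η / 2)) * K * Bn := by ring
          _ ≤ (1 - η / 2) * K * Bn := by
              apply mul_le_mul_of_nonneg_right _ hBpos.le
              apply mul_le_mul_of_nonneg_right _ hK0.le
              nlinarith
          _ ≤ a * Bn := mul_le_mul_of_nonneg_right c2 hBpos.le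
      calc (1 - η) * (K * Gn / (ζ * Real.log Y)) = (1 - η) * (K * Gn) / (ζ * Real.log Y) := by ring
        _ ≤ a * Bn / (ζ * Real.log Y) := div_le_div_of_nonneg_right h6 hzl.le
        _ = a / (ζ * Real.log Y) * Bn := by ring
  · have h6 : a * Bn ≤ (1 + η) * (K * Gn) := by
      calc a * Bn ≤ ((1 + η) * K) * Bn := mul_le_mul_of_nonneg_right c1 hBpos.le
        _ ≤ ((1 + η) * K) * Gn := mul_le_mul_of_nonneg_left b1 (by positivity)
        _ = _ := by ring
    calc a / (ζ * Real.log Y) * Bn = a * Bn / (ζ * Real.log Y) := by ring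
      _ ≤ (1 + η) * (K * Gn) / (ζ * Real.log Y) := div_le_div_of_nonneg_right h6 hzl.le
      _ = _ := by ring

end Pool.Agent.T2q87.G5
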