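import Pool.Agent.Y827.LS.Sfc

/-! The constant of the linear sieve is exactly `2 e^γ`. -/

set_option autoImplicit false

namespace Pool.Agent.T2q87.G5

open Finset Filter Topology MeasureTheory Set
open Pool.Agent.W23.DC
open Pool.Agent.Y827.LS.Sfc

section
variable {A0 : ℝ} {F f : ℝ → ℝ}

/-- the comparison function from above -/
noncomputable def Lp (n : ℕ) (σ : ℝ) : ℝ :=
  Real.log (1 + σ / n) + ∑ k ∈ Finset.range (n - 1), (1 - ((1 + σ / n)⁻¹) ^ (k + 1)) / (k + 1)

theorem Lp_deriv (n : ℕ) (hn : 1 ≤ n) (σ : ℝ) (hσ : 0 < σ) :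
    HasDerivAt (Lp n) ((1 - ((1 + σ / n)⁻¹) ^ n) / σ) σ := by
  have hn0 : (0 : ℝ) < n := by exact_mod_cast (by omega : 0 < n)
  have hp : 0 < 1 + σ / n := by positivity
  set u : ℝ := (1 + σ / n)⁻¹ with hu
  have hu0 : 0 < u := by positivity
  have hbase : HasDerivAt (fun σ : ℝ => 1 + σ / n) (1 / n) σ := by
    have := ((hasDerivAt_id σ).div_const (n : ℝ)).const_add 1
    simpa using this
  have hinv : HasDerivAt (fun σ : ℝ => (1 + σ / n)⁻¹) (-(1 / n) / (1 + σ / n) ^ 2) σ :=
    hbase.inv hp.ne'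
  have hinv' : HasDerivAt (fun σ : ℝ => (1 + σ / n)⁻¹) (-(1 / n) * u ^ 2) σ := by
    have e : -(1 / n) / (1 + σ / n) ^ 2 = -(1 / n) * u ^ 2 := by
      rw [hu, inv_pow, div_eq_mul_inv]
    rw [← e]
    exact hinv
  have h1 : ∀ k ∈ Finset.range (n - 1), HasDerivAt
      (fun σ : ℝ => (1 - ((1 + σ / n)⁻¹) ^ (k + 1)) / (k + 1)) (u ^ (k + 2) / n) σ := by
    intro k _
    have h3 : HasDerivAt (fun σ : ℝ => (1 - ((1 + σ / n)⁻¹) ^ (k + 1)) / (k + 1))
        (-(((k + 1 : ℕ) : ℝ) * ((1 + σ / n)⁻¹) ^ (k + 1 - 1) * (-(1 / n) * u ^ 2)) /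
          ((k : ℝ) + 1)) σ :=
      ((hinv'.pow (k + 1)).const_sub 1).div_const ((k : ℝ) + 1)
    have hk : ((k : ℝ) + 1) ≠ 0 := by positivity
    have h4 : u ^ (k + 2) / n = (-(((k + 1 : ℕ) : ℝ) * ((1 + σ / n)⁻¹) ^ (k + 1 - 1) *
        (-(1 / n) * u ^ 2)) / ((k : ℝ) + 1)) := by
      rw [Nat.add_sub_cancel, ← hu]
      push_cast
      field_simp
      ring
    rw [h4]
    exact h3
  have h2 := HasDerivAt.fun_sum h1
  have hlog : HasDerivAt (fun σ : ℝ => Real.log (1 + σ / n)) (u / n) σ := by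
    have h5 := hbase.log hp.ne'
    have e : 1 / (n : ℝ) / (1 + σ / n) = u / n := by
      rw [hu]
      field_simp
    rw [← e]
    exact h5
  have h3 := hlog.add h2
  have h6 : u / n + ∑ k ∈ Finset.range (n - 1), u ^ (k + 2) / n =
      (1 - u ^ n) / σ := by
    have e1 : u / n + ∑ k ∈ Finset.range (n - 1), u ^ (k + 2) / n =
        (u / n) * ∑ k ∈ Finset.range n, u ^ k := by
      obtain ⟨m, rfl⟩ : ∃ m, n = m + 1 := ⟨n - 1, by omega⟩
      rw [Nat.add_sub_cancel, Finset.sum_range_succ' (fun k => u ^ k) m, mul_add, pow_zero, mul_one,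
        Finset.mul_sum, add_comm]
      congr 1
      apply Finset.sum_congr rfl
      intro k _
      ring
    rw [e1]
    have h4 := geom_sum_mul u n
    have h5 : (n : ℝ) * (1 - u) = σ * u := by
      rw [hu]
      field_simp
      ring
    rw [eq_div_iff hσ.ne']
    have e2 : u / n * (∑ k ∈ Finset.range n, u ^ k) * σ =
        (σ * u) * (∑ k ∈ Finset.range n, u ^ k) / n := by ring
    rw [e2, ← h5]
    have e3 : (n : ℝ) * (1 - u) * (∑ k ∈ Finset.range n, u ^ k) / n =
        -((∑ k ∈ Finset.range n, u ^ k) * (u - 1)) := by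
      field_simp
      ring
    rw [e3, h4]
    ring
  rw [← h6]
  exact h3

/-- the comparison function increases -/
theorem psi_mono (h : SF A0 F f) (n : ℕ) (hn : 1 ≤ n) :
    MonotoneOn (fun σ => σ * (A0 + hh F f σ) * Real.exp (-Lp n σ)) (Ioi 0) := by
  have hn0 : (0 : ℝ) < n := by exact_mod_cast (by omega : 0 < n)
  have hA := h.pos
  have hder : ∀ σ : ℝ, 0 < σ → HasDerivAt (fun σ => σ * (A0 + hh F f σ) * Real.exp (-Lp n σ))
      ((A0 + hh F f σ) * Real.exp (-Lp n σ) * (((1 + σ / n)⁻¹) ^ n - Real.exp (-σ))) σ := by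
    intro σ hσ
    have h1 : HasDerivAt (fun σ => σ * (A0 + hh F f σ)) (1 * (A0 + hh F f σ) +
        σ * (-(Real.exp (-σ) / σ * (A0 + hh F f σ)))) σ :=
      (hasDerivAt_id σ).mul ((hh_deriv h σ hσ).const_add A0)
    have h2 : HasDerivAt (fun σ => Real.exp (-Lp n σ))
        (Real.exp (-Lp n σ) * -((1 - ((1 + σ / n)⁻¹) ^ n) / σ)) σ :=
      ((Lp_deriv n hn σ hσ).neg).exp
    have h3 : HasDerivAt (fun σ => σ * (A0 + hh F f σ) * Real.exp (-Lp n σ))
        ((1 * (A0 + hh F f σ) + σ * (-(Real.exp (-σ) / σ * (A0 + hh F f σ)))) *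
          Real.exp (-Lp n σ) + σ * (A0 + hh F f σ) *
          (Real.exp (-Lp n σ) * -((1 - ((1 + σ / n)⁻¹) ^ n) / σ))) σ := h1.mul h2
    have h4 : (A0 + hh F f σ) * Real.exp (-Lp n σ) * (((1 + σ / n)⁻¹) ^ n - Real.exp (-σ)) =
        ((1 * (A0 + hh F f σ) + σ * (-(Real.exp (-σ) / σ * (A0 + hh F f σ)))) *
          Real.exp (-Lp n σ) + σ * (A0 + hh F f σ) *
          (Real.exp (-Lp n σ) * -((1 - ((1 + σ / n)⁻¹) ^ n) / σ))) := by
      have e : σ * (A0 + hh F f σ) * (Real.exp (-Lp n σ) * -((1 - ((1 + σ / n)⁻¹) ^ n) / σ)) =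
          (A0 + hh F f σ) * (Real.exp (-Lp n σ) * -(1 - ((1 + σ / n)⁻¹) ^ n)) := by
        field_simp
      have e' : σ * (-(Real.exp (-σ) / σ * (A0 + hh F f σ))) =
          -(Real.exp (-σ) * (A0 + hh F f σ)) := by
        field_simp
      rw [e, e']
      ring
    rw [h4]
    exact h3
  apply monotoneOn_of_deriv_nonneg (convex_Ioi 0)
  · intro σ hσ
    exact (hder σ hσ).continuousAt.continuousWithinAt
  · intro σ hσ
    rw [interior_Ioi] at hσ
    exact (hder σ hσ).differentiableAt.differentiableWithinAt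
  · intro σ hσ
    rw [interior_Ioi] at hσ
    have hσ0 : 0 < σ := hσ
    rw [(hder σ hσ).deriv]
    have h1 : Real.exp (-σ) ≤ ((1 + σ / n)⁻¹) ^ n := by
      have h2 : 1 + σ / n ≤ Real.exp (σ / n) := by
        have := Real.add_one_le_exp (σ / n)
        linarith
      have h3 : 0 < 1 + σ / n := by positivity
      have h4 : (1 + σ / n) ^ n ≤ Real.exp σ := by
        calc (1 + σ / n) ^ n ≤ (Real.exp (σ / n)) ^ n := pow_le_pow_left₀ h3.le h2 n
          _ = Real.exp σ := by
              rw [← Real.exp_nat_mul]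
              congr 1
              field_simp
      rw [Real.exp_neg, inv_pow]
      exact inv_anti₀ (by positivity) h4
    have h2 := hh_nonneg h σ
    apply mul_nonneg
    · have := Real.exp_pos (-Lp n σ)
      positivity
    · linarith

theorem F_sub_f (h : SF A0 F f) (s : ℝ) (hs : 1 ≤ s) : F s - f s ≤ A0 / s := by
  rcases le_or_gt s 2 with h2 | h2
  · rw [h.F3 s hs (by linarith), h.f2 s hs h2, sub_zero]
  · have hs0 : 0 < s := by linarith
    have i1 : ∀ a b : ℝ, 2 ≤ a → 2 ≤ b → IntervalIntegrable (fun x => F (x - 1)) volume a b := by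
      intro a b ha hb
      apply ContinuousOn.intervalIntegrable
      apply h.cF.comp (by fun_prop)
      intro x hx
      have h3 := hx.1
      have h4 : 2 ≤ min a b := le_min ha hb
      show (1 : ℝ) ≤ x - 1
      linarith
    have i2 : ∀ a b : ℝ, 2 ≤ a → 2 ≤ b → IntervalIntegrable (fun x => f (x - 1)) volume a b := by
      intro a b ha hb
      apply ContinuousOn.intervalIntegrable
      apply h.cf.comp (by fun_prop)
      intro x hx
      have h3 := hx.1
      have h4 : 2 ≤ min a b := le_min ha hb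
      show (1 : ℝ) ≤ x - 1
      linarith
    have e1 : s * F s ≤ A0 + ∫ x in (2 : ℝ)..s, f (x - 1) := by
      rcases le_or_gt s 3 with h3 | h3
      · rw [h.F3 s hs h3]
        have e : s * (A0 / s) = A0 := by field_simp
        rw [e]
        have : 0 ≤ ∫ x in (2 : ℝ)..s, f (x - 1) := by
          apply intervalIntegral.integral_nonneg h2.le
          intro u hu
          exact f_nonneg h _ (by linarith [hu.1])
        linarith
      · rw [h.eF s h3.le, ← intervalIntegral.integral_add_adjacent_intervals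
          (i2 2 3 le_rfl (by norm_num)) (i2 3 s (by norm_num) (by linarith))]
        have : 0 ≤ ∫ x in (2 : ℝ)..3, f (x - 1) := by
          apply intervalIntegral.integral_nonneg (by norm_num)
          intro u hu
          exact f_nonneg h _ (by linarith [hu.1])
        linarith
    have e2 := h.ef s h2.le
    have e3 : ∫ x in (2 : ℝ)..s, f (x - 1) ≤ ∫ x in (2 : ℝ)..s, F (x - 1) := by
      apply intervalIntegral.integral_mono_on h2.le (i2 2 s le_rfl h2.le) (i1 2 s le_rfl h2.le)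
      intro x hx
      have h4 := h.F1 (x - 1) (by linarith [hx.1])
      have h5 := h.f1 (x - 1) (by linarith [hx.1])
      linarith
    rw [le_div_iff₀ hs0]
    nlinarith

/-- behaviour at zero, from below -/
theorem hh_ge (h : SF A0 F f) (κ : ℝ) (hκ : 0 < κ) (hκ1 : κ ≤ A0) (hκ2 : κ ≤ 2) : ∀ σ : ℝ, 0 < σ →
    (2 - κ) * Real.exp (-σ * (A0 / κ)) ≤ σ * hh F f σ := by
  intro σ hσ
  have hA := h.pos
  set a := A0 / κ with ha
  have ha1 : 1 ≤ a := by rw [ha, le_div_iff₀ hκ]; linarith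
  have h1 : ∫ s in Ioi a, (2 - κ) * Real.exp (-σ * s) ≤ hh F f σ := by
    unfold hh
    calc ∫ s in Ioi a, (2 - κ) * Real.exp (-σ * s) ≤ ∫ s in Ioi a, Hc F f s * Real.exp (-σ * s) := by
          apply setIntegral_mono_on ((integrableOn_exp_mul_Ioi (by linarith) a).const_mul _)
            ((int_H h σ hσ).mono_set (Ioi_subset_Ioi ha1)) measurableSet_Ioi
          intro s hs
          have hs1 : a < s := hs
          apply mul_le_mul_of_nonneg_right _ (Real.exp_pos _).le
          have h2 : A0 / s ≤ κ := by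
            rw [div_le_iff₀ (by linarith)]
            rw [ha, div_lt_iff₀ hκ] at hs1
            linarith
          have h3 := F_sub_f h s (by linarith)
          have h4 := h.F1 s (by linarith)
          unfold Hc
          rw [max_eq_left (by linarith : (1 : ℝ) ≤ s)]
          linarith
      _ ≤ ∫ s in Ioi 1, Hc F f s * Real.exp (-σ * s) := by
          apply setIntegral_mono_set (int_H h σ hσ)
          · filter_upwards with s
            exact mul_nonneg (Hc_nonneg h s) (Real.exp_pos _).le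
          · exact (Ioi_subset_Ioi ha1).eventuallyLE
  rw [integral_const_mul, integral_exp_mul_Ioi (by linarith)] at h1
  have e1 : -Real.exp (-σ * a) / -σ = Real.exp (-σ * a) / σ := by rw [neg_div_neg_eq]
  rw [e1] at h1
  have h2 := mul_le_mul_of_nonneg_left h1 hσ.le
  refine le_trans (le_of_eq ?_) h2
  field_simp

theorem hh_up (h : SF A0 F f) (σ : ℝ) (hσ : 0 < σ) : σ * hh F f σ ≤ (2 + A0) * Real.exp (-σ) := by
  have hA := h.pos
  have h1 : hh F f σ ≤ ∫ s in Ioi (1 : ℝ), (2 + A0) * Real.exp (-σ * s) := by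
    unfold hh
    apply setIntegral_mono_on (int_H h σ hσ)
      ((integrableOn_exp_mul_Ioi (by linarith) 1).const_mul _) measurableSet_Ioi
    intro s hs
    exact mul_le_mul_of_nonneg_right (Hc_le' h s (le_of_lt hs)) (Real.exp_pos _).le
  rw [integral_const_mul, integral_exp_mul_Ioi (by linarith), mul_one, neg_div_neg_eq] at h1
  have h2 := mul_le_mul_of_nonneg_left h1 hσ.le
  refine h2.trans (le_of_eq ?_)
  field_simp

theorem Lp_ge (n : ℕ) (σ : ℝ) (hσ : 0 < σ) : 0 ≤ Lp n σ := by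
  unfold Lp
  rcases Nat.eq_zero_or_pos n with h0 | h0
  · subst h0
    simp
  have hn0 : (0 : ℝ) < n := by exact_mod_cast h0
  have h1 : 0 < σ / n := by positivity
  apply add_nonneg (Real.log_nonneg (by linarith))
  apply Finset.sum_nonneg
  intro k _
  apply div_nonneg _ (by positivity)
  have h2 : ((1 + σ / n)⁻¹) ^ (k + 1) ≤ 1 := by
    apply pow_le_one₀ (by positivity)
    apply inv_le_one_of_one_le₀
    linarith
  linarith

theorem Lp_le (n : ℕ) (hn : 1 ≤ n) (σ : ℝ) (hσ : 0 < σ) : Lp n σ ≤ n * σ := by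
  have hn0 : (0 : ℝ) < n := by exact_mod_cast (by omega : 0 < n)
  have hn1 : (1 : ℝ) ≤ n := by exact_mod_cast hn
  unfold Lp
  have h1 : Real.log (1 + σ / n) ≤ σ / n := by
    have := Real.log_le_sub_one_of_pos (show 0 < 1 + σ / n by positivity)
    linarith
  have h2 : ∀ k ∈ Finset.range (n - 1), (1 - ((1 + σ / n)⁻¹) ^ (k + 1)) / ((k : ℝ) + 1) ≤ σ / n := by
    intro k _
    rw [div_le_iff₀ (by positivity)]
    have h3 : (1 + σ / n) ^ (k + 1) ≤ Real.exp (σ / n * (k + 1)) := by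
      have := Real.add_one_le_exp (σ / n)
      calc (1 + σ / n) ^ (k + 1) ≤ (Real.exp (σ / n)) ^ (k + 1) :=
            pow_le_pow_left₀ (by positivity) (by linarith) _
        _ = Real.exp (σ / n * (k + 1)) := by
            rw [← Real.exp_nat_mul]
            congr 1
            push_cast
            ring
    have h4 : Real.exp (-(σ / n * (k + 1))) ≤ ((1 + σ / n)⁻¹) ^ (k + 1) := by
      rw [Real.exp_neg, inv_pow]
      exact inv_anti₀ (by positivity) h3
    have h5 := Real.add_one_le_exp (-(σ / n * (k + 1)))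
    linarith
  have h3 := Finset.sum_le_sum h2
  rw [Finset.sum_const, Finset.card_range, nsmul_eq_mul, Nat.cast_sub hn, Nat.cast_one] at h3
  have h4 : σ / n + ((n : ℝ) - 1) * (σ / n) = σ := by field_simp; ring
  have h5 : σ ≤ n * σ := by nlinarith
  linarith

theorem n_bound' (h : SF A0 F f) (n : ℕ) (hn : 1 ≤ n) :
    2 ≤ n * A0 * Real.exp (-(harmonic (n - 1) : ℝ)) := by
  have hn0 : (0 : ℝ) < n := by exact_mod_cast (by omega : 0 < n)
  have hA := h.pos
  -- the value at zero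
  have hlow : ∀ σ : ℝ, 0 < σ → 2 ≤ σ * (A0 + hh F f σ) * Real.exp (-Lp n σ) := by
    intro σ hσ
    apply le_of_forall_pos_le_add
    intro κ' hκ'
    set κ := min κ' (min A0 2) with hκdef
    have hκ : 0 < κ := lt_min hκ' (lt_min hA (by norm_num))
    have hκ1 : κ ≤ A0 := (min_le_right _ _).trans (min_le_left _ _)
    have hκ2 : κ ≤ 2 := (min_le_right _ _).trans (min_le_right _ _)
    have hκ3 : κ ≤ κ' := min_le_left _ _
    have h1 : ∀ τ : ℝ, 0 < τ → τ ≤ σ →
        (2 - κ) * Real.exp (-τ * (A0 / κ)) * Real.exp (-(n * τ)) ≤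
          σ * (A0 + hh F f σ) * Real.exp (-Lp n σ) := by
      intro τ hτ hτσ
      have h2 := psi_mono h n hn (a := τ) (b := σ) hτ hσ hτσ
      simp only at h2
      refine le_trans ?_ h2
      have h3 := hh_ge h κ hκ hκ1 hκ2 τ hτ
      have h4 := Lp_le n hn τ hτ
      have h5 : (2 - κ) * Real.exp (-τ * (A0 / κ)) ≤ τ * (A0 + hh F f τ) := by
        have : 0 ≤ τ * A0 := by positivity
        linarith
      apply mul_le_mul h5 (Real.exp_le_exp.2 (by linarith)) (Real.exp_pos _).le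
      have := hh_nonneg h τ
      exact mul_nonneg hτ.le (by linarith)
    have h2 : Tendsto (fun τ : ℝ => (2 - κ) * Real.exp (-τ * (A0 / κ)) * Real.exp (-(n * τ)))
        (𝓝[>] 0) (𝓝 ((2 - κ) * Real.exp (-0 * (A0 / κ)) * Real.exp (-(n * 0)))) := by
      apply Tendsto.mono_left _ nhdsWithin_le_nhds
      apply Continuous.tendsto
      fun_prop
    rw [neg_zero, zero_mul, mul_zero, neg_zero, Real.exp_zero, mul_one, mul_one] at h2
    have h3 : 2 - κ ≤ σ * (A0 + hh F f σ) * Real.exp (-Lp n σ) := by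
      apply le_of_tendsto h2
      have h4 : Ioc 0 σ ∈ 𝓝[>] (0 : ℝ) := Ioc_mem_nhdsGT hσ
      filter_upwards [h4] with τ hτ
      exact h1 τ hτ.1 hτ.2
    linarith
  -- the value at infinity
  have hup : ∀ σ : ℝ, 0 < σ → 2 ≤ (σ * A0 + (2 + A0) * Real.exp (-σ)) *
      ((1 + σ / n)⁻¹ * Real.exp (-(∑ k ∈ Finset.range (n - 1),
        (1 - ((1 + σ / n)⁻¹) ^ (k + 1)) / ((k : ℝ) + 1)))) := by
    intro σ hσ
    refine (hlow σ hσ).trans ?_
    have hp : 0 < 1 + σ / n := by positivity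
    have e : Real.exp (-Lp n σ) = (1 + σ / n)⁻¹ * Real.exp (-(∑ k ∈ Finset.range (n - 1),
        (1 - ((1 + σ / n)⁻¹) ^ (k + 1)) / ((k : ℝ) + 1))) := by
      unfold Lp
      rw [neg_add, Real.exp_add, Real.exp_neg, Real.exp_log hp]
    rw [e]
    apply mul_le_mul_of_nonneg_right _ (by positivity)
    have := hh_up h σ hσ
    linarith
  have t1 : Tendsto (fun σ : ℝ => (1 + σ / n)⁻¹) atTop (𝓝 0) := by
    apply Tendsto.inv_tendsto_atTop
    apply tendsto_atTop_add_const_left
    exact tendsto_id.atTop_div_const hn0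
  have t2 : Tendsto (fun σ : ℝ => σ * (1 + σ / n)⁻¹) atTop (𝓝 n) := by
    have h1 : Tendsto (fun σ : ℝ => (n : ℝ) * (1 - (1 + σ / n)⁻¹)) atTop (𝓝 (n * (1 - 0))) :=
      (t1.const_sub 1).const_mul _
    rw [sub_zero, mul_one] at h1
    refine h1.congr' ?_
    filter_upwards [eventually_gt_atTop 0] with σ hσ
    have hp : 0 < 1 + σ / n := by positivity
    field_simp
    ring
  have t3 : Tendsto (fun σ : ℝ => Real.exp (-σ)) atTop (𝓝 0) :=
    Real.tendsto_exp_neg_atTop_nhds_zero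
  have t4 : Tendsto (fun σ : ℝ => ∑ k ∈ Finset.range (n - 1),
      (1 - ((1 + σ / n)⁻¹) ^ (k + 1)) / ((k : ℝ) + 1)) atTop
      (𝓝 (∑ k ∈ Finset.range (n - 1), (1 - (0 : ℝ) ^ (k + 1)) / ((k : ℝ) + 1))) := by
    apply tendsto_finset_sum
    intro k _
    exact ((t1.pow (k + 1)).const_sub 1).div_const _
  have e4 : ∑ k ∈ Finset.range (n - 1), (1 - (0 : ℝ) ^ (k + 1)) / ((k : ℝ) + 1) =
      (harmonic (n - 1) : ℝ) := by
    unfold harmonic
    push_cast
    apply Finset.sum_congr rfl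
    intro k _
    rw [zero_pow (by omega)]
    simp
  rw [e4] at t4
  have t5 : Tendsto (fun σ : ℝ => (σ * A0 + (2 + A0) * Real.exp (-σ)) *
      ((1 + σ / n)⁻¹ * Real.exp (-(∑ k ∈ Finset.range (n - 1),
        (1 - ((1 + σ / n)⁻¹) ^ (k + 1)) / ((k : ℝ) + 1))))) atTop
      (𝓝 ((n * A0 + (2 + A0) * 0 * 0) * Real.exp (-(harmonic (n - 1) : ℝ)))) := by
    have h1 : Tendsto (fun σ : ℝ => (σ * (1 + σ / n)⁻¹) * A0 +
        (2 + A0) * Real.exp (-σ) * (1 + σ / n)⁻¹) atTop (𝓝 (n * A0 + (2 + A0) * 0 * 0)) :=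
      (t2.mul_const _).add ((t3.const_mul _).mul t1)
    have h2 : Tendsto (fun σ : ℝ => Real.exp (-(∑ k ∈ Finset.range (n - 1),
        (1 - ((1 + σ / n)⁻¹) ^ (k + 1)) / ((k : ℝ) + 1)))) atTop
        (𝓝 (Real.exp (-(harmonic (n - 1) : ℝ)))) := (Real.continuous_exp.tendsto _).comp t4.neg
    refine (h1.mul h2).congr fun σ => ?_
    ring
  have h6 := ge_of_tendsto t5 (by
    filter_upwards [eventually_gt_atTop 0] with σ hσ
    exact hup σ hσ)
  simpa using h6

/-- the constant of the linear sieve -/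
theorem A0_eq (h : SF A0 F f) : A0 = 2 * Real.exp Real.eulerMascheroniConstant := by
  apply le_antisymm (sfc h)
  have h1 : Tendsto (fun n : ℕ => 2 * Real.exp ((harmonic n : ℝ) - Real.log (n + 1))) atTop
      (𝓝 (2 * Real.exp Real.eulerMascheroniConstant)) := by
    apply Tendsto.const_mul
    apply (Real.continuous_exp.tendsto _).comp
    have h2 := Real.tendsto_harmonic_sub_log_add_one
    exact h2
  apply le_of_tendsto h1
  filter_upwards with n
  have h2 := n_bound' h (n + 1) (by omega)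
  rw [Nat.add_sub_cancel] at h2
  push_cast at h2
  have hn0 : (0 : ℝ) < (n : ℝ) + 1 := by positivity
  rw [Real.exp_sub, Real.exp_log hn0]
  rw [Real.exp_neg] at h2
  have hE := Real.exp_pos (harmonic n : ℝ)
  rw [mul_div_assoc', div_le_iff₀ hn0]
  have h4 : 2 * Real.exp (harmonic n : ℝ) ≤
      (((n : ℝ) + 1) * A0 * (Real.exp (harmonic n : ℝ))⁻¹) * Real.exp (harmonic n : ℝ) :=
    mul_le_mul_of_nonneg_right h2 hE.le
  rw [inv_mul_cancel_right₀ hE.ne'] at h4
  linarith

end

end Pool.Agent.T2q87.G5
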