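import Pool.Agent.T2q87.G5.Lev
import Pool.Agent.Y882.Loc
import Pool.Agent.Y882.Core
import Pool.Agent.W23.UBe

/-! The sums of the weights over the numbers `n - p`. -/

set_option autoImplicit false

open Finset Filter

namespace Pool.Agent.T2q87.G5

open Pool.Agent.W23.DC
open Pool.Agent.Y882
open Pool.Agent.H300R2.WEH (piR err errMax)
open Pool.Agent.W23.UB (li PW mem_PW err_le_errMax)

/-- `|n - p|` -/
def ad (n p : ℕ) : ℕ := ((n : ℤ) - (p : ℤ)).natAbs

theorem dvd_ad (n p d : ℕ) : d ∣ ad n p ↔ p ≡ n [MOD d] := by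
  unfold ad
  rw [Nat.modEq_iff_dvd, Int.natCast_dvd]

open Classical in
/-- the primes `p` in `(y₁, y₂]` such that no element of `P` divides `n - p` -/
noncomputable def cz (P : Finset ℕ) (n : ℕ) (y₁ y₂ : ℝ) : ℕ :=
  ((PW y₁ y₂).filter (fun p => ∀ q ∈ P, ¬ q ∣ ad n p)).card

theorem card_dvd_le (n X : ℕ) (hn : 1 ≤ n) (hnX : n ≤ X) (y₁ y₂ : ℝ) :
    (((PW y₁ y₂).filter (fun p => p ∣ n)).card : ℝ) ≤ 2 * Real.log X := by
  classical
  have h1 : (PW y₁ y₂).filter (fun p => p ∣ n) ⊆ n.primeFactors := by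
    intro p hp
    rw [mem_filter, mem_PW] at hp
    rw [Nat.mem_primeFactors]
    exact ⟨hp.1.1, hp.2, by omega⟩
  have h2 : 2 ^ n.primeFactors.card ≤ n := by
    calc 2 ^ n.primeFactors.card ≤ ∏ p ∈ n.primeFactors, p := by
          apply Finset.pow_card_le_prod
          intro p hp
          exact (Nat.prime_of_mem_primeFactors hp).two_le
      _ ≤ n := Nat.le_of_dvd (by omega) (Nat.prod_primeFactors_dvd n)
  have h3 : ((2 : ℝ) ^ n.primeFactors.card) ≤ X := by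
    have : 2 ^ n.primeFactors.card ≤ X := h2.trans hnX
    exact_mod_cast this
  have h4 := Real.log_le_log (by positivity) h3
  rw [Real.log_pow] at h4
  have h5 := Real.log_two_gt_d9
  have h6 : (((PW y₁ y₂).filter (fun p => p ∣ n)).card : ℝ) ≤ n.primeFactors.card := by
    exact_mod_cast card_le_card h1
  have h7 : (0 : ℝ) ≤ n.primeFactors.card := Nat.cast_nonneg _
  nlinarith

/-- the primes of the window in a residue class -/
theorem cls (n d X : ℕ) {y₁ y₂ : ℝ} (h1 : 2 ≤ y₁) (h12 : y₁ ≤ y₂) (hy : y₂ ≤ X) :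
    |(((PW y₁ y₂).filter (fun p => d ∣ ad n p)).card : ℝ) -
      (li y₂ - li y₁) / (Nat.totient d : ℝ)| ≤ 2 * errMax X d n := by
  classical
  have e2 : (((PW y₁ y₂).filter (fun p => d ∣ ad n p)).card : ℝ) =
      (piR y₂ d n : ℝ) - (piR y₁ d n : ℝ) := by
    have h2 : (PW y₁ y₂).filter (fun p => d ∣ ad n p) =
        ((Icc 1 ⌊y₂⌋₊).filter (fun p => p.Prime ∧ p ≡ n [MOD d])) \
        ((Icc 1 ⌊y₁⌋₊).filter (fun p => p.Prime ∧ p ≡ n [MOD d])) := by
      ext p
      rw [mem_filter, mem_PW, Finset.mem_sdiff, mem_filter, mem_filter, mem_Icc, mem_Icc, dvd_ad]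
      constructor
      · rintro ⟨⟨h3, h4, h5⟩, h6⟩
        refine ⟨⟨⟨h3.one_lt.le, Nat.le_floor h5⟩, h3, h6⟩, ?_⟩
        rintro ⟨⟨_, h7⟩, _⟩
        have := (Nat.le_floor_iff (by linarith)).1 h7
        linarith
      · rintro ⟨⟨⟨h3, h4⟩, h5, h6⟩, h7⟩
        have h8 : (p : ℝ) ≤ y₂ := (Nat.le_floor_iff' (by omega)).1 h4
        refine ⟨⟨h5, ?_, h8⟩, h6⟩
        by_contra h9
        exact h7 ⟨⟨h3, Nat.le_floor (not_lt.1 h9)⟩, h5, h6⟩
    have hsub : ((Icc 1 ⌊y₁⌋₊).filter (fun p => p.Prime ∧ p ≡ n [MOD d])) ⊆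
        ((Icc 1 ⌊y₂⌋₊).filter (fun p => p.Prime ∧ p ≡ n [MOD d])) := by
      intro p hp
      rw [mem_filter, mem_Icc] at hp ⊢
      exact ⟨⟨hp.1.1, hp.1.2.trans (Nat.floor_mono h12)⟩, hp.2⟩
    rw [h2, Finset.card_sdiff_of_subset hsub, Nat.cast_sub (Finset.card_le_card hsub)]
    rfl
  have e3 : (((PW y₁ y₂).filter (fun p => d ∣ ad n p)).card : ℝ) -
      (li y₂ - li y₁) / (Nat.totient d : ℝ) =
      ((piR y₂ d n : ℝ) - li y₂ / (Nat.totient d : ℝ)) -
        ((piR y₁ d n : ℝ) - li y₁ / (Nat.totient d : ℝ)) := by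
    rw [e2]
    ring
  rw [e3]
  refine (abs_sub _ _).trans ?_
  have h2 : |(piR y₂ d n : ℝ) - li y₂ / (Nat.totient d : ℝ)| ≤ errMax X d n :=
    err_le_errMax (by linarith) hy
  have h3 : |(piR y₁ d n : ℝ) - li y₁ / (Nat.totient d : ℝ)| ≤ errMax X d n :=
    err_le_errMax h1 (by linarith)
  linarith

theorem tot_prod (T : Finset ℕ) (hT : ∀ p ∈ T, p.Prime) :
    Nat.totient (∏ q ∈ T, q) = ∏ q ∈ T, (q - 1) := by
  induction T using Finset.induction_on with
  | empty => simp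
  | insert a s ha ih =>
    rw [prod_insert ha, prod_insert ha, Nat.totient_mul, Nat.totient_prime (hT a (mem_insert_self _ _)),
      ih (fun p hp => hT p (mem_insert_of_mem hp))]
    apply Nat.Coprime.prod_right
    intro q hq
    rw [Nat.coprime_primes (hT a (mem_insert_self _ _)) (hT q (mem_insert_of_mem hq))]
    rintro rfl
    exact ha hq

open Classical in
/-- one modulus -/
theorem one_mod (X n : ℕ) (hn : 1 ≤ n) (hnX : n ≤ X) {y₁ y₂ : ℝ} (h1 : 2 ≤ y₁) (h12 : y₁ ≤ y₂)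
    (hy : y₂ ≤ X) (T : Finset ℕ) (hT : ∀ p ∈ T, p.Prime) :
    |(((PW y₁ y₂).filter (fun p => ¬ p ∣ n ∧ ∏ q ∈ T, q ∣ ad n p)).card : ℝ) -
      (li y₂ - li y₁) * ∏ q ∈ T, gn n q| ≤
      if Nat.Coprime n (∏ q ∈ T, q) then 2 * errMax X (∏ q ∈ T, q) n + 2 * Real.log X else 0 := by
  by_cases hc : Nat.Coprime n (∏ q ∈ T, q)
  · rw [if_pos hc]
    set d := ∏ q ∈ T, q with hd
    have hgn : ∏ q ∈ T, gn n q = 1 / (Nat.totient d : ℝ) := by
      have h3 : ∀ q ∈ T, gn n q = (((q - 1 : ℕ) : ℝ))⁻¹ := by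
        intro q hq
        unfold gn
        have hq1 := (hT q hq).one_lt
        rw [if_neg, Nat.cast_sub hq1.le, Nat.cast_one, one_div]
        intro hqn
        have h4 : q ∣ Nat.gcd n d := Nat.dvd_gcd hqn (dvd_prod_of_mem _ hq)
        rw [hc] at h4
        have := Nat.le_of_dvd one_pos h4
        omega
      rw [prod_congr rfl h3, prod_inv_distrib, one_div]
      congr 1
      have h5 : Nat.totient d = ∏ q ∈ T, (q - 1) := tot_prod T hT
      rw [h5]
      push_cast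
      rfl
    rw [hgn, mul_one_div]
    have h3 := cls n d X h1 h12 hy
    have h4 : (((PW y₁ y₂).filter (fun p => d ∣ ad n p)).card : ℝ) =
        (((PW y₁ y₂).filter (fun p => ¬ p ∣ n ∧ d ∣ ad n p)).card : ℝ) +
        (((PW y₁ y₂).filter (fun p => p ∣ n ∧ d ∣ ad n p)).card : ℝ) := by
      rw [← Nat.cast_add, ← card_union_of_disjoint]
      · congr 2
        ext p
        simp only [mem_filter, mem_union]
        tauto
      · rw [disjoint_left]
        intro p hp hp'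
        rw [mem_filter] at hp hp'
        exact hp.2.1 hp'.2.1
    have h5 : (((PW y₁ y₂).filter (fun p => p ∣ n ∧ d ∣ ad n p)).card : ℝ) ≤ 2 * Real.log X := by
      refine le_trans ?_ (card_dvd_le n X hn hnX y₁ y₂)
      have : (PW y₁ y₂).filter (fun p => p ∣ n ∧ d ∣ ad n p) ⊆
          (PW y₁ y₂).filter (fun p => p ∣ n) := by
        intro p hp
        rw [mem_filter] at hp ⊢
        exact ⟨hp.1, hp.2.1⟩
      exact_mod_cast card_le_card this
    have h6 : (0 : ℝ) ≤ (((PW y₁ y₂).filter (fun p => p ∣ n ∧ d ∣ ad n p)).card : ℝ) :=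
      Nat.cast_nonneg _
    rw [h4] at h3
    rw [abs_le] at h3 ⊢
    constructor <;> linarith [h3.1, h3.2]
  · rw [if_neg hc]
    obtain ⟨q, hq, hqn, hqd⟩ := Nat.Prime.not_coprime_iff_dvd.1 hc
    obtain ⟨q', hq', hqq⟩ := (Prime.dvd_finset_prod_iff hq.prime _).1 hqd
    have e : q = q' := (Nat.prime_dvd_prime_iff_eq hq (hT q' hq')).1 hqq
    subst e
    have h3 : ∏ q ∈ T, gn n q = 0 := by
      apply prod_eq_zero hq'
      unfold gn
      rw [if_pos hqn]
    have h4 : (PW y₁ y₂).filter (fun p => ¬ p ∣ n ∧ ∏ q ∈ T, q ∣ ad n p) = ∅ := by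
      rw [filter_eq_empty_iff]
      rintro p hp ⟨hpn, hpd⟩
      rw [mem_PW] at hp
      apply hpn
      have h5 : q ∣ ad n p := (dvd_prod_of_mem _ hq').trans hpd
      have h6 : (q : ℤ) ∣ (n : ℤ) - p := by
        unfold ad at h5
        exact Int.natCast_dvd.2 h5
      have h7 : (q : ℤ) ∣ (p : ℤ) := by
        have h8 : (q : ℤ) ∣ (n : ℤ) := Int.natCast_dvd_natCast.2 hqn
        have := dvd_sub h8 h6
        simpa using this
      have h8 : q ∣ p := Int.natCast_dvd_natCast.1 h7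
      rw [(Nat.prime_dvd_prime_iff_eq hq hp.1).1 h8] at hqn
      exact hqn
    rw [h3, h4]
    simp

open Classical in
/-- the sum of the weights -/
theorem wsum (X n : ℕ) (hn : 1 ≤ n) (hnX : n ≤ X) {y₁ y₂ : ℝ} (h1 : 2 ≤ y₁) (h12 : y₁ ≤ y₂)
    (hy : y₂ ≤ X) (P : Finset ℕ) (hP : ∀ p ∈ P, p.Prime) (w : Finset ℕ → ℝ) (M : ℝ)
    (hM : ∀ T, |w T| ≤ M) (S : Finset ℕ) (hS : ∀ T ⊆ P, w T ≠ 0 → ∏ p ∈ T, p ∈ S) :
    |∑ p ∈ (PW y₁ y₂).filter (fun p => ¬ p ∣ n), VV P w (fun q => if q ∣ ad n p then 1 else 0) -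
      (li y₂ - li y₁) * VV P w (gn n)| ≤
      M * ∑ d ∈ S.filter (fun d => Nat.Coprime n d), (2 * errMax X d n + 2 * Real.log X) := by
  have hM0 : 0 ≤ M := (abs_nonneg _).trans (hM ∅)
  have e1 : ∑ p ∈ (PW y₁ y₂).filter (fun p => ¬ p ∣ n),
      VV P w (fun q => if q ∣ ad n p then 1 else 0) =
      ∑ T ∈ P.powerset, w T *
        (((PW y₁ y₂).filter (fun p => ¬ p ∣ n ∧ ∏ q ∈ T, q ∣ ad n p)).card : ℝ) := by
    unfold VV
    rw [sum_comm]
    apply sum_congr rfl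
    intro T hT
    rw [mem_powerset] at hT
    rw [← mul_sum]
    congr 1
    rw [← filter_filter, card_filter]
    push_cast
    apply sum_congr rfl
    intro p _
    have h3 : ∏ q ∈ T, q ∣ ad n p ↔ ∀ q ∈ T, q ∣ ad n p := by
      constructor
      · intro h q hq
        exact (dvd_prod_of_mem _ hq).trans h
      · intro h
        apply Finset.prod_primes_dvd
        · intro q hq
          exact (hP q (hT hq)).prime
        · exact h
    rw [Finset.prod_ite_zero]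
    simp only [h3]
    simp
  have e2 : (li y₂ - li y₁) * VV P w (gn n) =
      ∑ T ∈ P.powerset, w T * ((li y₂ - li y₁) * ∏ q ∈ T, gn n q) := by
    unfold VV
    rw [mul_sum]
    apply sum_congr rfl
    intro T _
    ring
  rw [e1, e2, ← sum_sub_distrib]
  refine (abs_sum_le_sum_abs _ _).trans ?_
  have e3 : ∀ T ∈ P.powerset, |w T *
      (((PW y₁ y₂).filter (fun p => ¬ p ∣ n ∧ ∏ q ∈ T, q ∣ ad n p)).card : ℝ) -
      w T * ((li y₂ - li y₁) * ∏ q ∈ T, gn n q)| ≤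
      if w T ≠ 0 ∧ Nat.Coprime n (∏ q ∈ T, q) then
        M * (2 * errMax X (∏ q ∈ T, q) n + 2 * Real.log X) else 0 := by
    intro T hT
    rw [mem_powerset] at hT
    have h3 := one_mod X n hn hnX h1 h12 hy T (fun p hp => hP p (hT hp))
    rw [← mul_sub, abs_mul]
    by_cases hw : w T = 0
    · rw [hw, abs_zero, zero_mul, if_neg (fun h => h.1 rfl)]
    · by_cases hc : Nat.Coprime n (∏ q ∈ T, q)
      · rw [if_pos ⟨hw, hc⟩]
        rw [if_pos hc] at h3
        exact mul_le_mul (hM T) h3 (abs_nonneg _) hM0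
      · rw [if_neg (fun h => hc h.2)]
        rw [if_neg hc] at h3
        have : |(((PW y₁ y₂).filter (fun p => ¬ p ∣ n ∧ ∏ q ∈ T, q ∣ ad n p)).card : ℝ) -
            (li y₂ - li y₁) * ∏ q ∈ T, gn n q| = 0 := le_antisymm h3 (abs_nonneg _)
        rw [this, mul_zero]
  refine (sum_le_sum e3).trans ?_
  rw [← sum_filter, ← mul_sum]
  apply mul_le_mul_of_nonneg_left _ hM0
  have hinj : Set.InjOn (fun T : Finset ℕ => ∏ q ∈ T, q)
      (P.powerset.filter (fun T => w T ≠ 0 ∧ Nat.Coprime n (∏ q ∈ T, q)) : Finset (Finset ℕ)) := by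
    intro T hT T' hT' h
    rw [mem_coe, mem_filter, mem_powerset] at hT hT'
    exact prod_inj P hP hT.1 hT'.1 h
  rw [← sum_image (s := P.powerset.filter (fun T => w T ≠ 0 ∧ Nat.Coprime n (∏ q ∈ T, q)))
    (g := fun T : Finset ℕ => ∏ q ∈ T, q)
    (f := fun d => 2 * errMax X d n + 2 * Real.log X) hinj]
  apply sum_le_sum_of_subset_of_nonneg
  · intro d hd
    rw [mem_image] at hd
    obtain ⟨T, hT, rfl⟩ := hd
    rw [mem_filter, mem_powerset] at hT
    rw [mem_filter]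
    exact ⟨hS T hT.1 hT.2.1, hT.2.2⟩
  · intro d _ _
    have h3 := Pool.Agent.H300R2.WEH.errMax_nonneg X d n
    have h4 : 0 ≤ Real.log (X : ℝ) := Real.log_natCast_nonneg X
    linarith

end Pool.Agent.T2q87.G5
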