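import Pool.Agent.T2q87.G5.Core6
import Pool.Agent.T2q87.G5.Sfl
import Pool.Agent.T2q87.G5.Mrt
import Pool.Agent.T2q87.G5.Sum
import Pool.Agent.W366.DC.SFX

/-! The linear sieve of level `5 / 9` for `n - p`, for all but few `n`. -/

set_option autoImplicit false

open Finset Filter Topology

namespace Pool.Agent.T2q87.G5

open Pool.Agent.W23.DC
open Pool.Agent.Y882
open Pool.Agent.H300R2.WEH (piR err errMax)
open Pool.Agent.W23.UB (li PW mem_PW C2 C2_pos sing li_diff_ge)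

theorem sing_ge (n : ℕ) : 2 * C2 ≤ sing n := by
  unfold sing
  rw [Pool.Agent.W23.UB.prod_eq]
  have h1 := Pool.Agent.W23.UB.one_le_prod n
  have h2 := C2_pos
  calc 2 * C2 = 2 * C2 * 1 := by ring
    _ ≤ _ := mul_le_mul_of_nonneg_left h1 (by positivity)

/-- the sieve for one `n` -/
theorem one_n (X n : ℕ) (hn : 1 ≤ n) (hnX : n ≤ X) {y₁ y₂ : ℝ} (h1 : 2 ≤ y₁) (h12 : y₁ ≤ y₂)
    (hy : y₂ ≤ X) (P : Finset ℕ) (hP : ∀ p ∈ P, p.Prime) (wU wL : Finset ℕ → ℝ) (M Er' : ℝ)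
    (hM : ∀ T, |wU T| ≤ M ∧ |wL T| ≤ M) (S : Finset ℕ)
    (hS : ∀ T ⊆ P, (wU T ≠ 0 ∨ wL T ≠ 0) → ∏ p ∈ T, p ∈ S)
    (hN : ∀ N : ℕ, VV P wL (fun p => if p ∣ N then 1 else 0) ≤
          (if ∀ p ∈ P, ¬ p ∣ N then 1 else 0) ∧
        (if ∀ p ∈ P, ¬ p ∣ N then 1 else 0) ≤
          VV P wU (fun p => if p ∣ N then 1 else 0))
    (hE : M * ∑ d ∈ S.filter (fun d => Nat.Coprime n d), (2 * errMax X d n + 2 * Real.log X) ≤ Er') :
    (li y₂ - li y₁) * VV P wL (gn n) - Er' ≤ cz P n y₁ y₂ ∧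
    (cz P n y₁ y₂ : ℝ) ≤ (li y₂ - li y₁) * VV P wU (gn n) + Er' + 2 * Real.log X := by
  classical
  have sU := wsum X n hn hnX h1 h12 hy P hP wU M (fun T => (hM T).1) S
    (fun T hT h => hS T hT (Or.inl h))
  have sL := wsum X n hn hnX h1 h12 hy P hP wL M (fun T => (hM T).2) S
    (fun T hT h => hS T hT (Or.inr h))
  have sU' := (abs_le.1 (sU.trans hE)).2
  have sL' := (abs_le.1 (sL.trans hE)).1
  have hcz : (cz P n y₁ y₂ : ℝ) = ∑ p ∈ PW y₁ y₂, (if ∀ q ∈ P, ¬ q ∣ ad n p then (1 : ℝ) else 0) := by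
    unfold cz
    rw [card_filter]
    push_cast
    rfl
  have hsplit : ∑ p ∈ PW y₁ y₂, (if ∀ q ∈ P, ¬ q ∣ ad n p then (1 : ℝ) else 0) =
      ∑ p ∈ (PW y₁ y₂).filter (fun p => p ∣ n), (if ∀ q ∈ P, ¬ q ∣ ad n p then (1 : ℝ) else 0) +
      ∑ p ∈ (PW y₁ y₂).filter (fun p => ¬ p ∣ n), (if ∀ q ∈ P, ¬ q ∣ ad n p then (1 : ℝ) else 0) :=
    (sum_filter_add_sum_filter_not _ _ _).symm
  have hlow : 0 ≤ ∑ p ∈ (PW y₁ y₂).filter (fun p => p ∣ n),
      (if ∀ q ∈ P, ¬ q ∣ ad n p then (1 : ℝ) else 0) := by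
    apply sum_nonneg
    intro p _
    split_ifs <;> norm_num
  have hup : ∑ p ∈ (PW y₁ y₂).filter (fun p => p ∣ n),
      (if ∀ q ∈ P, ¬ q ∣ ad n p then (1 : ℝ) else 0) ≤ 2 * Real.log X := by
    refine le_trans ?_ (card_dvd_le n X hn hnX y₁ y₂)
    rw [card_eq_sum_ones]
    push_cast
    apply sum_le_sum
    intro p _
    split_ifs <;> norm_num
  rw [hcz, hsplit]
  constructor
  · have h3 : ∑ p ∈ (PW y₁ y₂).filter (fun p => ¬ p ∣ n),
        VV P wL (fun q => if q ∣ ad n p then 1 else 0) ≤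
        ∑ p ∈ (PW y₁ y₂).filter (fun p => ¬ p ∣ n),
          (if ∀ q ∈ P, ¬ q ∣ ad n p then (1 : ℝ) else 0) :=
      sum_le_sum fun p _ => (hN (ad n p)).1
    linarith
  · have h3 : ∑ p ∈ (PW y₁ y₂).filter (fun p => ¬ p ∣ n),
          (if ∀ q ∈ P, ¬ q ∣ ad n p then (1 : ℝ) else 0) ≤
        ∑ p ∈ (PW y₁ y₂).filter (fun p => ¬ p ∣ n),
        VV P wU (fun q => if q ∣ ad n p then 1 else 0) :=
      sum_le_sum fun p _ => (hN (ad n p)).2
    linarith

/-- asymptotic smallness of the errors -/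
theorem err_small (A : ℕ) (τ' c : ℝ) (hτ : τ' < 1) (hc : 0 < c) : ∀ᶠ X : ℕ in atTop,
    5 * Real.log X * (2 * (X / Real.log X ^ (A + 5)) + 2 * Real.log X * (X : ℝ) ^ τ') +
      2 * Real.log X ≤ c * (X / Real.log X ^ (A + 2)) := by
  have tl : Tendsto (fun X : ℕ => Real.log (X : ℝ)) atTop atTop :=
    Real.tendsto_log_atTop.comp tendsto_natCast_atTop_atTop
  have h1 : (fun x : ℝ => Real.log x ^ (A + 5)) =o[atTop] (fun x : ℝ => x ^ (1 - τ')) :=
    isLittleO_log_rpow_rpow_atTop (r := ((A + 5 : ℕ) : ℝ)) (s := 1 - τ') (by linarith)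
      |>.congr_left (by intro x; rw [Real.rpow_natCast])
  have h2 := (h1.comp_tendsto tendsto_natCast_atTop_atTop (k := fun n : ℕ => (n : ℝ))).bound
    (show (0 : ℝ) < 1 by norm_num)
  have h1' : (fun x : ℝ => Real.log x ^ (A + 4)) =o[atTop] (fun x : ℝ => x ^ (1 : ℝ)) :=
    isLittleO_log_rpow_rpow_atTop (r := ((A + 4 : ℕ) : ℝ)) (s := 1) (by norm_num)
      |>.congr_left (by intro x; rw [Real.rpow_natCast])
  have h2' := (h1'.comp_tendsto tendsto_natCast_atTop_atTop (k := fun n : ℕ => (n : ℝ))).bound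
    (show (0 : ℝ) < 1 by norm_num)
  filter_upwards [h2, h2', tl.eventually_ge_atTop (22 / c), tl.eventually_ge_atTop 1,
    eventually_ge_atTop 3] with X e1 e2 e3 e4 e5
  have hX : (3 : ℝ) ≤ X := by exact_mod_cast e5
  set L := Real.log (X : ℝ) with hL
  simp only [Function.comp] at e1 e2
  rw [Real.norm_of_nonneg (by positivity), Real.norm_of_nonneg (by positivity), one_mul] at e1 e2
  rw [Real.rpow_one] at e2
  have hL0 : 0 < L := by linarith
  have hcL : 22 ≤ c * L := by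
    rw [div_le_iff₀ hc] at e3
    linarith
  -- the three terms
  have t1 : 5 * L * (2 * (X / L ^ (A + 5))) = 10 / L ^ 2 * (X / L ^ (A + 2)) := by
    field_simp
    ring
  have t2 : (X : ℝ) ^ τ' * L ^ (A + 5) ≤ X := by
    calc (X : ℝ) ^ τ' * L ^ (A + 5) ≤ (X : ℝ) ^ τ' * (X : ℝ) ^ (1 - τ') :=
          mul_le_mul_of_nonneg_left e1 (by positivity)
      _ = X := by
          rw [← Real.rpow_add (by linarith)]
          rw [show τ' + (1 - τ') = 1 by ring, Real.rpow_one]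
  have t2' : 5 * L * (2 * L * (X : ℝ) ^ τ') ≤ 10 / L * (X / L ^ (A + 2)) := by
    have : 10 / L * (X / L ^ (A + 2)) = 10 * L ^ 2 * (X / L ^ (A + 5)) := by
      field_simp
      ring
    rw [this]
    have h3 : (X : ℝ) ^ τ' ≤ X / L ^ (A + 5) := by
      rw [le_div_iff₀ (by positivity)]
      exact t2
    calc 5 * L * (2 * L * (X : ℝ) ^ τ') = 10 * L ^ 2 * (X : ℝ) ^ τ' := by ring
      _ ≤ _ := mul_le_mul_of_nonneg_left h3 (by positivity)
  have t3 : 2 * L ≤ 2 / L * (X / L ^ (A + 2)) := by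
    have : 2 / L * (X / L ^ (A + 2)) = 2 * L * (X / L ^ (A + 4)) := by
      field_simp
      ring
    rw [this]
    have h3 : 1 ≤ X / L ^ (A + 4) := by
      rw [le_div_iff₀ (by positivity), one_mul]
      exact e2
    calc 2 * L = 2 * L * 1 := by ring
      _ ≤ _ := mul_le_mul_of_nonneg_left h3 (by positivity)
  have t4 : 10 / L ^ 2 ≤ 10 / L := by
    apply div_le_div_of_nonneg_left (by norm_num) hL0
    nlinarith
  have hXA : 0 ≤ X / L ^ (A + 2) := by positivity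
  have t5 : 10 / L ^ 2 * (X / L ^ (A + 2)) ≤ 10 / L * (X / L ^ (A + 2)) :=
    mul_le_mul_of_nonneg_right t4 hXA
  have t6 : 22 / L * (X / L ^ (A + 2)) ≤ c * (X / L ^ (A + 2)) := by
    apply mul_le_mul_of_nonneg_right _ hXA
    rw [div_le_iff₀ hL0]
    exact hcL
  have t7 : 22 / L * (X / L ^ (A + 2)) = 10 / L * (X / L ^ (A + 2)) + 10 / L * (X / L ^ (A + 2)) +
      2 / L * (X / L ^ (A + 2)) := by ring
  rw [mul_add, t1]
  linarith

/-- products of different primes -/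
theorem sqf_prod {T : Finset ℕ} (hT : ∀ p ∈ T, p.Prime) : Squarefree (∏ p ∈ T, p) := by
  refine Finset.squarefree_prod_of_pairwise_isCoprime (fun p hp r hr hpr => ?_) fun p hp => ?_
  · simp only [← Nat.coprime_iff_isRelPrime]
    exact (Nat.coprime_primes (hT p hp) (hT r hr)).mpr hpr
  · exact (hT p hp).squarefree

/-- the sieve for all but few `n` -/
theorem both (A0 : ℝ) (F f : ℝ → ℝ) (hSF : SF A0 F f) (τ ζ ε : ℝ) (hζ : 0 < ζ) (h1 : ζ ≤ τ)
    (h2 : 1 / 2 ≤ τ) (h3 : τ < 5 / 9) (hε : 0 < ε) (A : ℕ) :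
    ∃ (B : ℕ) (C : ℝ) (X₀ : ℕ), 0 < C ∧ ∀ X : ℕ, X₀ ≤ X → ∃ E : Finset ℕ,
      (E.card : ℝ) ≤ C * Real.log X ^ B ∧ ∀ n : ℕ, 1 ≤ n → n ≤ X → Even n → n ∉ E →
      ∀ y₁ y₂ : ℝ, 2 ≤ y₁ → y₁ + X / Real.log X ^ A ≤ y₂ → y₂ ≤ X →
      (f (τ / ζ) - ε) * ((li y₂ - li y₁) * ∏ p ∈ PZ X ζ, (1 - gn n p)) ≤ cz (PZ X ζ) n y₁ y₂ ∧
      (cz (PZ X ζ) n y₁ y₂ : ℝ) ≤
        (F (τ / ζ) + ε) * ((li y₂ - li y₁) * ∏ p ∈ PZ X ζ, (1 - gn n p)) := by
  classical
  set τ' : ℝ := (τ + 5 / 9) / 2 with hτ'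
  have h4 : τ < τ' := by rw [hτ']; linarith
  have h5 : τ' < 5 / 9 := by rw [hτ']; linarith
  have hζ1 : ζ ≤ 1 := by linarith
  obtain ⟨ε₁, η, hε₁, hε₁ζ, hη, Y0, H⟩ := core6 1 A0 F f hSF τ ζ τ' (ε / 2) hζ h1 (by linarith) h4
    (by positivity)
  obtain ⟨B, C, hC, hlev⟩ := level τ τ' h2 h4 h5 (A + 5)
  obtain ⟨Y1, hdens⟩ := dens ζ (1 / 2) hζ hζ1 (by norm_num)
  obtain ⟨Y2, hmer⟩ := mer_gn ε₁ ζ η hε₁ hζ1 hη
  set G := Real.exp (-Real.eulerMascheroniConstant) with hG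
  have hG0 : 0 < G := Real.exp_pos _
  have hC2 := C2_pos
  set c : ℝ := ε / 2 * (C2 * G / ζ) with hc
  have hc0 : 0 < c := by rw [hc]; positivity
  obtain ⟨Y3, hY3⟩ := eventually_atTop.1 ((err_small A τ' c (by linarith) hc0).and
    (eventually_ge_atTop 3))
  refine ⟨B, C, max (max Y0 Y1) (max Y2 Y3), hC, ?_⟩
  intro X hX
  obtain ⟨e1, e2⟩ := hY3 X (((le_max_right _ _).trans (le_max_right _ _)).trans hX)
  have hX3 : (3 : ℝ) ≤ X := by exact_mod_cast e2
  have hL1 : 1 ≤ Real.log X := by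
    have h6 : Real.log (Real.exp 1) ≤ Real.log X :=
      Real.log_le_log (Real.exp_pos 1) (by linarith [Real.exp_one_lt_d9])
    rwa [Real.log_exp] at h6
  set L := Real.log (X : ℝ) with hL
  obtain ⟨wU, wL, w1, w2, w3, w4⟩ := H X (((le_max_left _ _).trans (le_max_left _ _)).trans hX)
  have hPp : ∀ p ∈ PZ X ζ, p.Prime := by
    intro p hp
    unfold PZ at hp
    exact (mem_filter.1 hp).2.1
  refine ⟨(Icc 1 X).filter (fun a : ℕ => (X : ℝ) / Real.log X ^ (A + 5) <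
      ∑ d ∈ (SW τ τ' X).filter (fun d => Nat.Coprime a d), errMax X d a), hlev X e2, ?_⟩
  intro n hn hnX hev hnE y₁ y₂ hy1 hy12 hy2
  have hXA : 0 ≤ X / L ^ A := by positivity
  have hy12' : y₁ ≤ y₂ := by linarith
  have hE0 : ∑ d ∈ (SW τ τ' X).filter (fun d => Nat.Coprime n d), errMax X d n ≤
      (X : ℝ) / L ^ (A + 5) := by
    rw [mem_filter, mem_Icc, not_and] at hnE
    exact not_lt.1 (hnE ⟨hn, hnX⟩)
  have hcardS : (((SW τ τ' X).filter (fun d => Nat.Coprime n d)).card : ℝ) ≤ (X : ℝ) ^ τ' := by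
    have h6 : ((SW τ τ' X).filter (fun d => Nat.Coprime n d)).card ≤ ⌊(X : ℝ) ^ τ'⌋₊ := by
      refine (card_filter_le _ _).trans ?_
      unfold SW
      refine (card_filter_le _ _).trans ?_
      rw [Nat.card_Icc]
      omega
    calc (((SW τ τ' X).filter (fun d => Nat.Coprime n d)).card : ℝ) ≤ (⌊(X : ℝ) ^ τ'⌋₊ : ℝ) := by
          exact_mod_cast h6
      _ ≤ (X : ℝ) ^ τ' := Nat.floor_le (by positivity)
  have hEr : 5 * L * ∑ d ∈ (SW τ τ' X).filter (fun d => Nat.Coprime n d),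
      (2 * errMax X d n + 2 * L) ≤
      5 * L * (2 * (X / L ^ (A + 5)) + 2 * L * (X : ℝ) ^ τ') := by
    apply mul_le_mul_of_nonneg_left _ (by positivity)
    rw [sum_add_distrib, ← mul_sum, sum_const, nsmul_eq_mul]
    have h6 : (((SW τ τ' X).filter (fun d => Nat.Coprime n d)).card : ℝ) * (2 * L) ≤
        (X : ℝ) ^ τ' * (2 * L) := mul_le_mul_of_nonneg_right hcardS (by positivity)
    linarith
  obtain ⟨b1, b2⟩ := one_n X n hn hnX hy1 hy12' hy2 (PZ X ζ) hPp wU wL (5 * L) _ w1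
    (SW τ τ' X) (by
      intro T hT hne
      obtain ⟨a1, d0, d1, a2, a3, a4⟩ := w2 T hT hne
      unfold SW
      rw [mem_filter, mem_Icc]
      refine ⟨⟨?_, Nat.le_floor a1⟩, ?_, d0, d1, a2, a3, a4⟩
      · exact Nat.pos_of_ne_zero (prod_ne_zero_iff.2 fun p hp => (hPp p (hT hp)).ne_zero)
      · exact sqf_prod (fun p hp => hPp p (hT hp))) w3 hEr
  -- the density
  obtain ⟨d1, d2⟩ := hdens X (((le_max_right _ _).trans (le_max_left _ _)).trans hX) n hn hnX hev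
  set V := ∏ p ∈ PZ X ζ, (1 - gn n p) with hV
  have hVlow : C2 * G / ζ / L ≤ V := by
    refine le_trans ?_ d1
    have h6 := sing_ge n
    have h7 : C2 * G / ζ / L = (1 - 1 / 2) * (2 * C2 * G / (ζ * L)) := by
      field_simp
      ring
    rw [h7]
    apply mul_le_mul_of_nonneg_left _ (by norm_num)
    apply div_le_div_of_nonneg_right _ (by positivity)
    exact mul_le_mul_of_nonneg_right h6 hG0.le
  have hV0 : 0 < V := lt_of_lt_of_le (by positivity) hVlow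
  have hgn0 : ∀ p ∈ PZ X ζ, 0 ≤ gn n p := by
    intro p hp
    have h6 : (2 : ℝ) ≤ p := by exact_mod_cast (hPp p hp).two_le
    unfold gn
    split_ifs
    · exact le_rfl
    · exact div_nonneg (by norm_num) (by linarith)
  obtain ⟨c1, c2⟩ := w4 (gn n) hgn0 (by
      intro p hp
      have h6 : (2 : ℝ) ≤ p := by exact_mod_cast (hPp p hp).two_le
      unfold gn
      split_ifs
      · norm_num
      · rw [div_le_one (by linarith)]
        linarith) (by
      intro p hp _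
      have h6 : (2 : ℝ) ≤ p := by exact_mod_cast (hPp p hp).two_le
      unfold gn
      split_ifs
      · exact div_nonneg (by positivity) (by linarith)
      · push_cast
        exact le_rfl)
    (hmer X (((le_max_left _ _).trans (le_max_right _ _)).trans hX) n hn (by omega))
  -- the length
  have hli := li_diff_ge hy1 hy12'
  have hy2pos : 0 < Real.log y₂ := Real.log_pos (by linarith)
  have hI : X / L ^ (A + 1) ≤ li y₂ - li y₁ := by
    refine le_trans ?_ hli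
    rw [pow_succ, ← div_div]
    apply div_le_div₀ (by linarith) (by linarith) hy2pos
    exact Real.log_le_log (by linarith) hy2
  have hI0 : 0 ≤ li y₂ - li y₁ := le_trans (by positivity) hI
  set I := li y₂ - li y₁ with hIdef
  have hmain : c * (X / L ^ (A + 2)) ≤ ε / 2 * (I * V) := by
    have h6 : X / L ^ (A + 1) * (C2 * G / ζ / L) ≤ I * V :=
      mul_le_mul hI hVlow (by positivity) hI0
    have h7 : c * (X / L ^ (A + 2)) = ε / 2 * (X / L ^ (A + 1) * (C2 * G / ζ / L)) := by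
      rw [hc, show A + 2 = (A + 1) + 1 from rfl, pow_succ L (A + 1)]
      field_simp
    rw [h7]
    exact mul_le_mul_of_nonneg_left h6 (by positivity)
  constructor
  · have h6 : I * ((f (τ / ζ) - ε / 2) * V) ≤ I * VV (PZ X ζ) wL (gn n) :=
      mul_le_mul_of_nonneg_left c1 hI0
    have h7 : 0 ≤ 2 * L := by positivity
    have h8 : (f (τ / ζ) - ε) * (I * V) = I * ((f (τ / ζ) - ε / 2) * V) - ε / 2 * (I * V) := by ring
    rw [h8]
    linarith
  · have h6 : I * VV (PZ X ζ) wU (gn n) ≤ I * ((F (τ / ζ) + ε / 2) * V) :=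
      mul_le_mul_of_nonneg_left c2 hI0
    have h8 : (F (τ / ζ) + ε) * (I * V) = I * ((F (τ / ζ) + ε / 2) * V) + ε / 2 * (I * V) := by ring
    rw [h8]
    linarith

/-- the upper bound -/
theorem upper (ε : ℝ) (hε : 0 < ε) (A : ℕ) :
    ∃ (B : ℕ) (C : ℝ) (X₀ : ℕ), 0 < C ∧ ∀ X : ℕ, X₀ ≤ X → ∃ E : Finset ℕ,
      (E.card : ℝ) ≤ C * Real.log X ^ B ∧ ∀ n : ℕ, 1 ≤ n → n ≤ X → Even n → n ∉ E →
      ∀ y₁ y₂ : ℝ, 2 ≤ y₁ → y₁ + X / Real.log X ^ A ≤ y₂ → y₂ ≤ X →
      (cz (PZ X (5 / 27)) n y₁ y₂ : ℝ) ≤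
        (18 / 5 + ε) * sing n * (li y₂ - li y₁) / Real.log X := by
  obtain ⟨A0, F, f, hSF⟩ := Pool.Agent.W366.DC.SFX
  have hA0 := A0_eq hSF
  -- the parameters
  have hG0 : 0 < Real.exp (-Real.eulerMascheroniConstant) := Real.exp_pos _
  set G := Real.exp (-Real.eulerMascheroniConstant) with hG
  obtain ⟨τ, h1, h2, h3⟩ : ∃ τ : ℝ, 1 / 2 ≤ τ ∧ τ < 5 / 9 ∧ 2 / τ ≤ 18 / 5 + ε / 4 := by
    refine ⟨max (1 / 2) (2 / (18 / 5 + ε / 4)), le_max_left _ _, ?_, ?_⟩
    · apply max_lt (by norm_num)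
      rw [div_lt_iff₀ (by positivity)]
      linarith
    · rw [div_le_iff₀ (lt_max_of_lt_left (by norm_num))]
      have h4 : 2 / (18 / 5 + ε / 4) ≤ max (1 / 2) (2 / (18 / 5 + ε / 4)) := le_max_right _ _
      calc 2 = (18 / 5 + ε / 4) * (2 / (18 / 5 + ε / 4)) := by field_simp
        _ ≤ _ := mul_le_mul_of_nonneg_left h4 (by positivity)
  set ε₁ : ℝ := ε / 4 * (5 / 27) / G with hε₁
  have hε₁0 : 0 < ε₁ := by rw [hε₁]; positivity
  obtain ⟨η, hη0, hη⟩ : ∃ η : ℝ, 0 < η ∧ (18 / 5 + ε / 2) * (1 + η) ≤ 18 / 5 + ε := by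
    refine ⟨ε / 2 / (18 / 5 + ε / 2), by positivity, ?_⟩
    have : (18 / 5 + ε / 2) * (1 + ε / 2 / (18 / 5 + ε / 2)) = 18 / 5 + ε / 2 + ε / 2 := by
      field_simp
    rw [this]
    linarith
  obtain ⟨B, C, X₁, hC, H⟩ := both A0 F f hSF τ (5 / 27) ε₁ (by norm_num) (by linarith) h1 h2 hε₁0 A
  obtain ⟨X₂, hD⟩ := dens (5 / 27) η (by norm_num) (by norm_num) hη0
  refine ⟨B, C, max (max X₁ X₂) 3, hC, ?_⟩
  intro X hX
  have hX3 : (3 : ℝ) ≤ X := by exact_mod_cast (le_max_right _ _).trans hX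
  have hL0 : 0 < Real.log X := Real.log_pos (by linarith)
  obtain ⟨E, hE, HE⟩ := H X (((le_max_left _ _).trans (le_max_left _ _)).trans hX)
  refine ⟨E, hE, ?_⟩
  intro n hn hnX hev hnE y₁ y₂ hy1 hy12 hy2
  have h4 := (HE n hn hnX hev hnE y₁ y₂ hy1 hy12 hy2).2
  have h5 := (hD X (((le_max_right _ _).trans (le_max_left _ _)).trans hX) n hn hnX hev).2
  have hy12' : y₁ ≤ y₂ := by
    have : 0 ≤ (X : ℝ) / Real.log X ^ A := by positivity
    linarith
  have hI0 : 0 ≤ li y₂ - li y₁ := by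
    refine le_trans ?_ (li_diff_ge hy1 hy12')
    have : 0 ≤ Real.log y₂ := Real.log_nonneg (by linarith)
    exact div_nonneg (by linarith) this
  have hF : F (τ / (5 / 27)) = A0 / (τ / (5 / 27)) := hSF.F3 _ (by
      rw [le_div_iff₀ (by norm_num)]; linarith) (by
      rw [div_le_iff₀ (by norm_num)]; linarith)
  have hτ0 : 0 < τ := by linarith
  have hFpos : 0 ≤ F (τ / (5 / 27)) + ε₁ := by
    rw [hF, hA0]
    positivity
  have hs := sing_pos n
  refine h4.trans ?_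
  have h6 : (F (τ / (5 / 27)) + ε₁) * ((li y₂ - li y₁) * ∏ p ∈ PZ X (5 / 27), (1 - gn n p)) ≤
      (F (τ / (5 / 27)) + ε₁) * ((li y₂ - li y₁) *
        ((1 + η) * (sing n * G / (5 / 27 * Real.log X)))) := by
    apply mul_le_mul_of_nonneg_left _ hFpos
    exact mul_le_mul_of_nonneg_left h5 hI0
  refine h6.trans ?_
  have hEG : Real.exp Real.eulerMascheroniConstant * G = 1 := by
    rw [hG, ← Real.exp_add]
    simp
  have h7 : (F (τ / (5 / 27)) + ε₁) * G / (5 / 27) = 2 / τ + ε / 4 := by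
    rw [hF, hA0, hε₁]
    have e1 : 2 * Real.exp Real.eulerMascheroniConstant / (τ / (5 / 27)) =
        Real.exp Real.eulerMascheroniConstant * (2 * (5 / 27) / τ) := by
      field_simp
    rw [e1, add_mul, add_div]
    have e2 : Real.exp Real.eulerMascheroniConstant * (2 * (5 / 27) / τ) * G / (5 / 27) =
        (Real.exp Real.eulerMascheroniConstant * G) * (2 / τ) := by
      field_simp
    have e3 : ε / 4 * (5 / 27) / G * G / (5 / 27) = ε / 4 := by
      field_simp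
    rw [e2, e3, hEG, one_mul]
  have h8 : (F (τ / (5 / 27)) + ε₁) * ((li y₂ - li y₁) *
        ((1 + η) * (sing n * G / (5 / 27 * Real.log X)))) =
      ((F (τ / (5 / 27)) + ε₁) * G / (5 / 27)) * (1 + η) * sing n * (li y₂ - li y₁) /
        Real.log X := by
    field_simp
  rw [h8, h7]
  apply div_le_div_of_nonneg_right _ hL0.le
  apply mul_le_mul_of_nonneg_right _ hI0
  apply mul_le_mul_of_nonneg_right _ hs.le
  refine le_trans ?_ hη
  apply mul_le_mul_of_nonneg_right _ (by linarith)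
  linarith

/-- the lower bound -/
theorem lower (v : ℝ) (hv1 : 5 / 36 ≤ v) (hv2 : v < 5 / 18) (ε : ℝ) (hε : 0 < ε) (A : ℕ) :
    ∃ (B : ℕ) (C : ℝ) (X₀ : ℕ), 0 < C ∧ ∀ X : ℕ, X₀ ≤ X → ∃ E : Finset ℕ,
      (E.card : ℝ) ≤ C * Real.log X ^ B ∧ ∀ n : ℕ, 1 ≤ n → n ≤ X → Even n → n ∉ E →
      ∀ y₁ y₂ : ℝ, 2 ≤ y₁ → y₁ + X / Real.log X ^ A ≤ y₂ → y₂ ≤ X →
        (18 / 5 * Real.log (5 / (9 * v) - 1) - ε) * sing n * (li y₂ - li y₁) / Real.log X ≤
          (cz (PZ X v) n y₁ y₂ : ℝ) := by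
  obtain ⟨A0, F, f, hSF⟩ := Pool.Agent.W366.DC.SFX
  have hA0 := A0_eq hSF
  have hv0 : 0 < v := by linarith
  have hG0 : 0 < Real.exp (-Real.eulerMascheroniConstant) := Real.exp_pos _
  set G := Real.exp (-Real.eulerMascheroniConstant) with hG
  set c : ℝ := 18 / 5 * Real.log (5 / (9 * v) - 1) with hc
  have hc0 : 0 < c := by
    have h1 : 1 < 5 / (9 * v) - 1 := by
      have : 2 < 5 / (9 * v) := by
        rw [lt_div_iff₀ (by positivity)]
        linarith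
      linarith
    have := Real.log_pos h1
    positivity
  -- the level
  obtain ⟨τ, h1, h2, h3, h4⟩ : ∃ τ : ℝ, 1 / 2 ≤ τ ∧ τ < 5 / 9 ∧ 2 * v ≤ τ ∧
      c - ε / 4 ≤ 2 / τ * Real.log (τ / v - 1) := by
    have hcont : ContinuousAt (fun τ : ℝ => 2 / τ * Real.log (τ / v - 1)) (5 / 9) := by
      apply ContinuousAt.mul
      · exact continuousAt_const.div continuousAt_id (by norm_num)
      · apply ContinuousAt.log
        · exact (continuousAt_id.div_const v).sub continuousAt_const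
        · have : 2 < 5 / 9 / v := by
            rw [lt_div_iff₀ hv0]
            linarith
          have h9 : (5 / 9 : ℝ) / v - 1 ≠ 0 := by linarith
          exact h9
    have hval : 2 / (5 / 9 : ℝ) * Real.log (5 / 9 / v - 1) = c := by
      rw [hc]
      congr 1
      · norm_num
      · congr 2
        field_simp
    have ev1 : ∀ᶠ τ in 𝓝[<] (5 / 9 : ℝ), c - ε / 4 < 2 / τ * Real.log (τ / v - 1) := by
      apply eventually_nhdsWithin_of_eventually_nhds
      apply hcont.eventually_const_lt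
      show c - ε / 4 < 2 / (5 / 9 : ℝ) * Real.log (5 / 9 / v - 1)
      rw [hval]
      linarith
    have ev2 : ∀ᶠ τ in 𝓝[<] (5 / 9 : ℝ), max (1 / 2) (2 * v) < τ := by
      apply eventually_nhdsWithin_of_eventually_nhds
      apply eventually_gt_nhds
      apply max_lt (by norm_num)
      linarith
    have ev3 : ∀ᶠ τ in 𝓝[<] (5 / 9 : ℝ), τ < 5 / 9 := eventually_mem_nhdsWithin
    obtain ⟨τ, e1, e2, e3⟩ := (ev1.and (ev2.and ev3)).exists
    exact ⟨τ, (le_max_left _ _).trans e2.le, e3, (le_max_right _ _).trans e2.le, e1.le⟩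
  set ε₁ : ℝ := ε / 4 * v / G with hε₁
  have hε₁0 : 0 < ε₁ := by rw [hε₁]; positivity
  obtain ⟨η, hη0, hη1, hη⟩ : ∃ η : ℝ, 0 < η ∧ η ≤ 1 ∧ η * c ≤ ε / 2 := by
    refine ⟨min 1 (ε / 2 / c), lt_min one_pos (by positivity), min_le_left _ _, ?_⟩
    calc min 1 (ε / 2 / c) * c ≤ ε / 2 / c * c :=
          mul_le_mul_of_nonneg_right (min_le_right _ _) hc0.le
      _ = ε / 2 := by field_simp
  obtain ⟨B, C, X₁, hC, H⟩ := both A0 F f hSF τ v ε₁ hv0 (by linarith) h1 h2 hε₁0 A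
  obtain ⟨X₂, hD⟩ := dens v η hv0 (by linarith) hη0
  refine ⟨B, C, max (max X₁ X₂) 3, hC, ?_⟩
  intro X hX
  have hX3 : (3 : ℝ) ≤ X := by exact_mod_cast (le_max_right _ _).trans hX
  have hL0 : 0 < Real.log X := Real.log_pos (by linarith)
  obtain ⟨E, hE, HE⟩ := H X (((le_max_left _ _).trans (le_max_left _ _)).trans hX)
  refine ⟨E, hE, ?_⟩
  intro n hn hnX hev hnE y₁ y₂ hy1 hy12 hy2
  have hy12' : y₁ ≤ y₂ := by
    have : 0 ≤ (X : ℝ) / Real.log X ^ A := by positivity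
    linarith
  have hI0 : 0 ≤ li y₂ - li y₁ := by
    refine le_trans ?_ (li_diff_ge hy1 hy12')
    have : 0 ≤ Real.log y₂ := Real.log_nonneg (by linarith)
    exact div_nonneg (by linarith) this
  have hs := sing_pos n
  rcases le_or_gt c ε with hce | hce
  · have h5 : (c - ε) * sing n * (li y₂ - li y₁) / Real.log X ≤ 0 := by
      apply div_nonpos_of_nonpos_of_nonneg _ hL0.le
      apply mul_nonpos_of_nonpos_of_nonneg _ hI0
      exact mul_nonpos_of_nonpos_of_nonneg (by linarith) hs.le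
    exact h5.trans (Nat.cast_nonneg _)
  have h5 := (HE n hn hnX hev hnE y₁ y₂ hy1 hy12 hy2).1
  have h6 := (hD X (((le_max_right _ _).trans (le_max_left _ _)).trans hX) n hn hnX hev).1
  have hτ0 : 0 < τ := by linarith
  have hf : f (τ / v) = A0 * Real.log (τ / v - 1) / (τ / v) := hSF.f4 _ (by
      rw [le_div_iff₀ hv0]; linarith) (by
      rw [div_le_iff₀ hv0]; linarith)
  have hEG : Real.exp Real.eulerMascheroniConstant * G = 1 := by
    rw [hG, ← Real.exp_add]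
    simp
  have h7 : (f (τ / v) - ε₁) * G / v = 2 / τ * Real.log (τ / v - 1) - ε / 4 := by
    rw [hf, hA0, hε₁]
    have e1 : 2 * Real.exp Real.eulerMascheroniConstant * Real.log (τ / v - 1) / (τ / v) =
        Real.exp Real.eulerMascheroniConstant * (2 * Real.log (τ / v - 1) * v / τ) := by
      field_simp
    rw [e1, sub_mul, sub_div]
    have e2 : Real.exp Real.eulerMascheroniConstant * (2 * Real.log (τ / v - 1) * v / τ) * G / v =
        (Real.exp Real.eulerMascheroniConstant * G) * (2 / τ * Real.log (τ / v - 1)) := by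
      field_simp
    have e3 : ε / 4 * v / G * G / v = ε / 4 := by
      field_simp
    rw [e2, e3, hEG, one_mul]
  have h8 : c - ε / 2 ≤ (f (τ / v) - ε₁) * G / v := by
    rw [h7]
    linarith
  have hfpos : 0 ≤ f (τ / v) - ε₁ := by
    have h9 : 0 ≤ (f (τ / v) - ε₁) * G / v := by linarith
    have h10 : 0 ≤ (f (τ / v) - ε₁) * G / v * v := mul_nonneg h9 hv0.le
    rw [div_mul_cancel₀ _ hv0.ne'] at h10
    exact nonneg_of_mul_nonneg_left h10 hG0
  refine le_trans ?_ h5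
  have h9 : (f (τ / v) - ε₁) * ((li y₂ - li y₁) *
        ((1 - η) * (sing n * G / (v * Real.log X)))) ≤
      (f (τ / v) - ε₁) * ((li y₂ - li y₁) * ∏ p ∈ PZ X v, (1 - gn n p)) := by
    apply mul_le_mul_of_nonneg_left _ hfpos
    exact mul_le_mul_of_nonneg_left h6 hI0
  refine le_trans ?_ h9
  have h10 : (f (τ / v) - ε₁) * ((li y₂ - li y₁) *
        ((1 - η) * (sing n * G / (v * Real.log X)))) =
      ((f (τ / v) - ε₁) * G / v) * (1 - η) * sing n * (li y₂ - li y₁) / Real.log X := by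
    field_simp
  rw [h10]
  apply div_le_div_of_nonneg_right _ hL0.le
  apply mul_le_mul_of_nonneg_right _ hI0
  apply mul_le_mul_of_nonneg_right _ hs.le
  calc c - ε ≤ (c - ε / 2) * (1 - η) := by nlinarith
    _ ≤ _ := mul_le_mul_of_nonneg_right h8 (by linarith)

end Pool.Agent.T2q87.G5
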