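import Pool.Agent.H442R2.FX.AsmY
import Pool.Agent.W23.DC.Defs

/-! The level of distribution for the moduli of the linear sieve of level `τ' < 5/9`, for all but few
residues. -/

set_option autoImplicit false

open Finset Filter

namespace Pool.Agent.T2q87.G5

open Pool.Agent.W23.DC
open Pool.Agent.H442R2
open Pool.Agent.H300R2.WEH (errMax)

theorem sum_biUnion_le' {ι α : Type} [DecidableEq ι] [DecidableEq α] (s : Finset ι)
    (t : ι → Finset α) (f : α → ℝ) (hf : ∀ x, 0 ≤ f x) :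
    ∑ x ∈ s.biUnion t, f x ≤ ∑ i ∈ s, ∑ x ∈ t i, f x := by
  induction s using Finset.induction_on with
  | empty => simp
  | insert a s ha ih =>
    rw [biUnion_insert, sum_insert ha]
    have h1 := sum_union_inter (s₁ := t a) (s₂ := s.biUnion t) (f := f)
    have h2 : 0 ≤ ∑ x ∈ t a ∩ s.biUnion t, f x := sum_nonneg fun x _ => hf x
    linarith

theorem sz_log (N : ℕ) (hN : 2 ≤ N) (u : ℕ) (hu : Squarefree u) :
    sz (tt N) u * Real.log N = Real.log u := by
  have hN0 : (1 : ℝ) < N := by exact_mod_cast hN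
  have hl : 0 < Real.log N := Real.log_pos hN0
  unfold sz tt
  rw [← sum_div, div_mul_cancel₀ _ hl.ne']
  conv_rhs => rw [← Nat.prod_primeFactors_of_squarefree hu]
  push_cast
  rw [Real.log_prod]
  intro p hp
  have := (Nat.prime_of_mem_primeFactors hp).ne_zero
  exact_mod_cast this

theorem sz_le_pow (N : ℕ) (hN : 2 ≤ N) (u : ℕ) (hu : Squarefree u) (a : ℝ) (h : sz (tt N) u ≤ a) :
    (u : ℝ) ≤ (N : ℝ) ^ a := by
  have hN0 : (1 : ℝ) < N := by exact_mod_cast hN
  have hl : 0 < Real.log N := Real.log_pos hN0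
  have hu0 : (0 : ℝ) < u := by exact_mod_cast Nat.pos_of_ne_zero hu.ne_zero
  rw [← Real.log_le_log_iff hu0 (by positivity), Real.log_rpow (by linarith), ← sz_log N hN u hu]
  exact mul_le_mul_of_nonneg_right h hl.le

/-- the products of a small number and a well-factorable number are factorable -/
theorem facD_of (N : ℕ) (hN : 2 ≤ N) (τ τ' θ δ κ : ℝ) (d d0 d1 : ℕ) (hd : Squarefree d)
    (he : d = d0 * d1) (h0 : (d0 : ℝ) ≤ (N : ℝ) ^ (τ' - τ)) (hW : WFac (tt N) τ d1)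
    (hlo : (N : ℝ) ^ (θ - κ) ≤ d) (ha : 0 ≤ 4 - 7 * θ - δ) (ha' : 4 - 7 * θ - δ ≤ τ)
    (hg : 0 ≤ 5 - 8 * θ - τ' - κ - 2 * δ) : FX.FacD N θ δ d := by
  have hN0 : (1 : ℝ) < N := by exact_mod_cast hN
  refine ⟨hd, ?_⟩
  obtain ⟨u, v, huv, hu, hv⟩ := hW (4 - 7 * θ - δ) (τ - (4 - 7 * θ - δ)) ha (by linarith) (by ring)
  have hsq : Squarefree (u * v) := by
    rw [huv]
    exact hd.squarefree_of_dvd ⟨d0, by rw [he]; ring⟩
  have hsu : Squarefree u := hsq.squarefree_of_dvd ⟨v, rfl⟩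
  have hsv : Squarefree v := hsq.squarefree_of_dvd ⟨u, by ring⟩
  have hu1 := sz_le_pow N hN u hsu _ hu
  have hv1 := sz_le_pow N hN v hsv _ hv
  refine ⟨u, ⟨d0 * v, by rw [he, ← huv]; ring⟩, ?_, hu1⟩
  have hv0 : (0 : ℝ) < v := by exact_mod_cast Nat.pos_of_ne_zero hsv.ne_zero
  have hd0 : (0 : ℝ) < d0 := by
    have : d0 ≠ 0 := by
      rintro rfl
      rw [zero_mul] at he
      exact hd.ne_zero he
    exact_mod_cast Nat.pos_of_ne_zero this
  have hden : (d0 : ℝ) * v ≤ (N : ℝ) ^ (τ' - (4 - 7 * θ - δ)) := by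
    calc (d0 : ℝ) * v ≤ (N : ℝ) ^ (τ' - τ) * (N : ℝ) ^ (τ - (4 - 7 * θ - δ)) :=
          mul_le_mul h0 hv1 hv0.le (by positivity)
      _ = (N : ℝ) ^ (τ' - (4 - 7 * θ - δ)) := by
          rw [← Real.rpow_add (by linarith)]
          congr 1
          ring
  have hdr : (d : ℝ) = u * (d0 * v) := by
    rw [he, ← huv]
    push_cast
    ring
  have h1 : (N : ℝ) ^ (2 * θ - 1 + δ) * (N : ℝ) ^ (τ' - (4 - 7 * θ - δ)) ≤ d := by
    refine le_trans ?_ hlo
    rw [← Real.rpow_add (by linarith)]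
    apply Real.rpow_le_rpow_of_exponent_le hN0.le
    linarith
  have h2 : (N : ℝ) ^ (2 * θ - 1 + δ) * (d0 * v) ≤ u * (d0 * v) := by
    rw [← hdr]
    refine le_trans ?_ h1
    exact mul_le_mul_of_nonneg_left hden (by positivity)
  exact le_of_mul_le_mul_right h2 (by positivity)

open Classical in
/-- the moduli of the sieve -/
noncomputable def SW (τ τ' : ℝ) (N : ℕ) : Finset ℕ :=
  (Icc 1 ⌊(N : ℝ) ^ τ'⌋₊).filter (fun d => Squarefree d ∧ ∃ d0 d1 : ℕ, d = d0 * d1 ∧
    (d0 : ℝ) ≤ (N : ℝ) ^ (τ' - τ) ∧ WFac (tt N) τ d1)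

open Classical in
/-- one block -/
noncomputable def SB (τ τ' θ δ : ℝ) (N : ℕ) : Finset ℕ :=
  (SW τ τ' N).filter (fun d => d ≤ ⌊(N : ℝ) ^ θ⌋₊ ∧
    (d ≤ ⌊(N : ℝ) ^ (49 / 100 : ℝ)⌋₊ ∨ FX.FacD N θ δ d))

theorem block (τ τ' θ δ : ℝ) (h1 : 1 / 2 ≤ θ) (h2 : θ < 5 / 9) (hδ : 0 < δ) (U : ℕ) :
    ∃ (B : ℕ) (C : ℝ), 0 < C ∧ ∀ N : ℕ, 3 ≤ N →
    (((Icc 1 N).filter (fun a : ℕ => (N : ℝ) / Real.log N ^ U <
      ∑ d ∈ (SB τ τ' θ δ N).filter (fun d => Nat.Coprime a d), errMax N d a)).card : ℝ) ≤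
      C * Real.log N ^ B := by
  classical
  have hS1 : ∀ N, 3 ≤ N → SB τ τ' θ δ N ⊆ Icc 1 ⌊(N : ℝ) ^ θ⌋₊ := by
    intro N _ d hd
    unfold SB SW at hd
    rw [mem_filter, mem_filter, mem_Icc] at hd
    exact mem_Icc.2 ⟨hd.1.1.1, hd.2.1⟩
  have hfin := FX.finalS FX.CF_thm θ δ h1 h2 hδ (SB τ τ' θ δ) hS1 (by
    intro N _ d hd hlt
    unfold SB at hd
    rw [mem_filter] at hd
    rcases hd.2.2 with h | h
    · omega
    · exact h)
  obtain ⟨B, C, hC, H⟩ := FX.weightedS θ h2 (SB τ τ' θ δ) hS1 hfin 1 le_rfl U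
  refine ⟨B, C, hC, fun N hN => ?_⟩
  have := H N hN
  simpa using this

theorem level (τ τ' : ℝ) (h1 : 1 / 2 ≤ τ) (h2 : τ < τ') (h3 : τ' < 5 / 9) (U : ℕ) :
    ∃ (B : ℕ) (C : ℝ), 0 < C ∧ ∀ N : ℕ, 3 ≤ N →
    (((Icc 1 N).filter (fun a : ℕ => (N : ℝ) / Real.log N ^ U <
      ∑ d ∈ (SW τ τ' N).filter (fun d => Nat.Coprime a d), errMax N d a)).card : ℝ) ≤
      C * Real.log N ^ B := by
  classical
  obtain ⟨κ, hκ⟩ : ∃ κ : ℝ, κ = (5 - 9 * τ') / 22 := ⟨_, rfl⟩
  have hκ0 : 0 < κ := by rw [hκ]; linarith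
  have hκ1 : κ ≤ 1 / 44 := by rw [hκ]; linarith
  obtain ⟨I, hI⟩ : ∃ I : ℕ, I = ⌈(τ' - 1 / 2) / κ⌉₊ := ⟨_, rfl⟩
  have hI1 : τ' ≤ 1 / 2 + I * κ := by
    have : (τ' - 1 / 2) / κ ≤ I := by rw [hI]; exact Nat.le_ceil _
    rw [div_le_iff₀ hκ0] at this
    linarith
  have hI2 : 1 / 2 + (I : ℝ) * κ ≤ τ' + κ := by
    have : (I : ℝ) < (τ' - 1 / 2) / κ + 1 := by
      rw [hI]
      exact Nat.ceil_lt_add_one (div_nonneg (by linarith) hκ0.le)
    have h4 : (I : ℝ) * κ < ((τ' - 1 / 2) / κ + 1) * κ := mul_lt_mul_of_pos_right this hκ0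
    have h5 : ((τ' - 1 / 2) / κ + 1) * κ = τ' - 1 / 2 + κ := by field_simp
    linarith
  have hθ : ∀ i : ℕ, i ≤ I → 1 / 2 + (i : ℝ) * κ ≤ τ' + κ := by
    intro i hi
    have : (i : ℝ) * κ ≤ I * κ := by
      apply mul_le_mul_of_nonneg_right _ hκ0.le
      exact_mod_cast hi
    linarith
  have hblk : ∀ i : ℕ, ∃ (B : ℕ) (C : ℝ), 0 < C ∧ (i ≤ I → ∀ N : ℕ, 3 ≤ N →
      (((Icc 1 N).filter (fun a : ℕ => (N : ℝ) / Real.log N ^ (U + 1) <
        ∑ d ∈ (SB τ τ' (1 / 2 + i * κ) κ N).filter (fun d => Nat.Coprime a d),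
          errMax N d a)).card : ℝ) ≤ C * Real.log N ^ B) := by
    intro i
    by_cases hi : i ≤ I
    · obtain ⟨B, C, hC, H⟩ := block τ τ' (1 / 2 + i * κ) κ
        (by have : (0 : ℝ) ≤ i * κ := by positivity
            linarith) (by have := hθ i hi; linarith) hκ0 (U + 1)
      exact ⟨B, C, hC, fun _ => H⟩
    · exact ⟨0, 1, one_pos, fun h => absurd h hi⟩
  choose B C hC H using hblk
  set B' : ℕ := ∑ i ∈ range (I + 1), B i with hB'
  set C' : ℝ := ∑ i ∈ range (I + 1), C i with hC'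
  refine ⟨B', C' + Real.exp (I + 1), by
    have : 0 ≤ C' := sum_nonneg fun i _ => (hC i).le
    have := Real.exp_pos ((I : ℝ) + 1)
    linarith, ?_⟩
  intro N hN
  have hN3 : (3 : ℝ) ≤ N := by exact_mod_cast hN
  have hN1 : (1 : ℝ) < N := by linarith
  have hL1 : 1 ≤ Real.log N := by
    have h4 : Real.log (Real.exp 1) ≤ Real.log N :=
      Real.log_le_log (Real.exp_pos 1) (by linarith [Real.exp_one_lt_d9])
    rwa [Real.log_exp] at h4
  have hLB : 1 ≤ Real.log N ^ B' := one_le_pow₀ hL1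
  have hC'0 : 0 ≤ C' := sum_nonneg fun i _ => (hC i).le
  rcases lt_or_ge (Real.log N) (I + 1) with hs | hs
  · -- small N
    have h4 : (N : ℝ) ≤ Real.exp (I + 1) := by
      rw [← Real.log_le_iff_le_exp (by linarith)]
      exact hs.le
    have h5 : (((Icc 1 N).filter (fun a : ℕ => (N : ℝ) / Real.log N ^ U <
        ∑ d ∈ (SW τ τ' N).filter (fun d => Nat.Coprime a d), errMax N d a)).card : ℝ) ≤ N := by
      have := Finset.card_filter_le (Icc 1 N) (fun a : ℕ => (N : ℝ) / Real.log N ^ U <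
        ∑ d ∈ (SW τ τ' N).filter (fun d => Nat.Coprime a d), errMax N d a)
      rw [Nat.card_Icc, Nat.add_sub_cancel] at this
      exact_mod_cast this
    refine (h5.trans h4).trans ?_
    have h6 : 0 ≤ C' + Real.exp (I + 1) := by
      have := Real.exp_pos ((I : ℝ) + 1)
      linarith
    calc Real.exp (I + 1) ≤ (C' + Real.exp (I + 1)) * 1 := by linarith
      _ ≤ _ := mul_le_mul_of_nonneg_left hLB h6
  · -- large N
    have hcov : SW τ τ' N ⊆ (range (I + 1)).biUnion (fun i => SB τ τ' (1 / 2 + i * κ) κ N) := by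
      intro d hd
      have hd' := hd
      unfold SW at hd
      rw [mem_filter, mem_Icc] at hd
      obtain ⟨⟨hd1, hd2⟩, hsq, d0, d1, he, h0, hW⟩ := hd
      rw [mem_biUnion]
      have hmono : ∀ a b : ℝ, a ≤ b → ⌊(N : ℝ) ^ a⌋₊ ≤ ⌊(N : ℝ) ^ b⌋₊ := fun a b hab =>
        Nat.floor_le_floor (Real.rpow_le_rpow_of_exponent_le hN1.le hab)
      rcases le_or_gt d ⌊(N : ℝ) ^ (49 / 100 : ℝ)⌋₊ with h49 | h49
      · refine ⟨0, mem_range.2 (by omega), ?_⟩
        unfold SB
        rw [mem_filter]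
        exact ⟨hd', h49.trans (hmono _ _ (by push_cast; linarith)), Or.inl h49⟩
      · have hex : ∃ i : ℕ, d ≤ ⌊(N : ℝ) ^ (1 / 2 + (i : ℝ) * κ)⌋₊ :=
          ⟨I, hd2.trans (hmono _ _ hI1)⟩
        set i := Nat.find hex with hi
        have hi1 : d ≤ ⌊(N : ℝ) ^ (1 / 2 + (i : ℝ) * κ)⌋₊ := Nat.find_spec hex
        have hiI : i ≤ I := Nat.find_min' hex (hd2.trans (hmono _ _ hI1))
        refine ⟨i, mem_range.2 (by omega), ?_⟩
        unfold SB
        rw [mem_filter]
        refine ⟨hd', hi1, Or.inr ?_⟩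
        have hθi := hθ i hiI
        have hi0 : (0 : ℝ) ≤ i * κ := by positivity
        rcases Nat.eq_zero_or_pos i with h6 | h6
        · have h7 : (N : ℝ) ^ (49 / 100 : ℝ) ≤ d := by
            have := Nat.lt_of_floor_lt h49
            exact this.le
          rw [h6] at hθi ⊢
          push_cast at hθi ⊢
          apply facD_of N (by omega) τ τ' _ κ (1 / 100) d d0 d1 hsq he h0 hW
          · refine le_trans (le_of_eq ?_) h7
            norm_num
          · linarith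
          · linarith
          · linarith
        · have h7 : ¬ d ≤ ⌊(N : ℝ) ^ (1 / 2 + ((i - 1 : ℕ) : ℝ) * κ)⌋₊ :=
            Nat.find_min hex (by omega)
          have h8 : (N : ℝ) ^ (1 / 2 + ((i - 1 : ℕ) : ℝ) * κ) ≤ d :=
            (Nat.lt_of_floor_lt (not_le.1 h7)).le
          rw [Nat.cast_sub (by omega), Nat.cast_one] at h8
          apply facD_of N (by omega) τ τ' _ κ κ d d0 d1 hsq he h0 hW
          · refine le_trans (le_of_eq ?_) h8
            congr 1
            ring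
          · linarith
          · linarith
          · linarith
    have hsub : (Icc 1 N).filter (fun a : ℕ => (N : ℝ) / Real.log N ^ U <
        ∑ d ∈ (SW τ τ' N).filter (fun d => Nat.Coprime a d), errMax N d a) ⊆
        (range (I + 1)).biUnion (fun i => (Icc 1 N).filter (fun a : ℕ =>
          (N : ℝ) / Real.log N ^ (U + 1) <
          ∑ d ∈ (SB τ τ' (1 / 2 + i * κ) κ N).filter (fun d => Nat.Coprime a d),
            errMax N d a)) := by
      intro a ha
      rw [mem_filter] at ha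
      rw [mem_biUnion]
      by_contra hc
      push Not at hc
      have h4 : ∀ i ∈ range (I + 1),
          ∑ d ∈ (SB τ τ' (1 / 2 + i * κ) κ N).filter (fun d => Nat.Coprime a d), errMax N d a ≤
            (N : ℝ) / Real.log N ^ (U + 1) := by
        intro i hi
        have h5 := hc i hi
        rw [mem_filter, not_and] at h5
        exact not_lt.1 (h5 ha.1)
      have h5 : ∑ d ∈ (SW τ τ' N).filter (fun d => Nat.Coprime a d), errMax N d a ≤
          ∑ i ∈ range (I + 1), ∑ d ∈ (SB τ τ' (1 / 2 + i * κ) κ N).filter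
            (fun d => Nat.Coprime a d), errMax N d a := by
        have h6 : (SW τ τ' N).filter (fun d => Nat.Coprime a d) ⊆
            (range (I + 1)).biUnion (fun i => (SB τ τ' (1 / 2 + i * κ) κ N).filter
              (fun d => Nat.Coprime a d)) := by
          intro d hd
          rw [mem_filter] at hd
          have h7 := hcov hd.1
          rw [mem_biUnion] at h7 ⊢
          obtain ⟨i, hi, h8⟩ := h7
          exact ⟨i, hi, mem_filter.2 ⟨h8, hd.2⟩⟩
        refine (sum_le_sum_of_subset_of_nonneg h6 fun d _ _ =>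
          Pool.Agent.H300R2.WEH.errMax_nonneg N d a).trans ?_
        exact sum_biUnion_le' _ _ _ fun d => Pool.Agent.H300R2.WEH.errMax_nonneg N d a
      have h6 := h5.trans (sum_le_sum h4)
      rw [sum_const, card_range, nsmul_eq_mul] at h6
      push_cast at h6
      have h7 : ((I : ℝ) + 1) * ((N : ℝ) / Real.log N ^ (U + 1)) ≤ (N : ℝ) / Real.log N ^ U := by
        rw [pow_succ, mul_div_assoc', div_le_div_iff₀ (by positivity) (by positivity)]
        have : 0 ≤ (N : ℝ) * Real.log N ^ U := by positivity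
        nlinarith
      linarith [ha.2]
    have h4 : (((Icc 1 N).filter (fun a : ℕ => (N : ℝ) / Real.log N ^ U <
        ∑ d ∈ (SW τ τ' N).filter (fun d => Nat.Coprime a d), errMax N d a)).card : ℝ) ≤
        ∑ i ∈ range (I + 1), (((Icc 1 N).filter (fun a : ℕ =>
          (N : ℝ) / Real.log N ^ (U + 1) <
          ∑ d ∈ (SB τ τ' (1 / 2 + i * κ) κ N).filter (fun d => Nat.Coprime a d),
            errMax N d a)).card : ℝ) := by
      have := (card_le_card hsub).trans card_biUnion_le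
      exact_mod_cast this
    refine h4.trans ?_
    have h5 : ∀ i ∈ range (I + 1), (((Icc 1 N).filter (fun a : ℕ =>
          (N : ℝ) / Real.log N ^ (U + 1) <
          ∑ d ∈ (SB τ τ' (1 / 2 + i * κ) κ N).filter (fun d => Nat.Coprime a d),
            errMax N d a)).card : ℝ) ≤ C i * Real.log N ^ B' := by
      intro i hi
      refine (H i (by rw [mem_range] at hi; omega) N hN).trans ?_
      apply mul_le_mul_of_nonneg_left _ (hC i).le
      apply pow_le_pow_right₀ hL1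
      exact single_le_sum (f := B) (fun _ _ => Nat.zero_le _) hi
    refine (sum_le_sum h5).trans ?_
    rw [← sum_mul]
    apply mul_le_mul_of_nonneg_right _ (by linarith)
    have := Real.exp_pos ((I : ℝ) + 1)
    linarith

end Pool.Agent.T2q87.G5
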