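import Pool.Agent.T2q87.G5.Fin

/-! The four statements in the form of cardinalities of exceptional sets. -/

set_option autoImplicit false

open Finset Filter Topology

namespace Pool.Agent.T2q87.G5

open Pool.Agent.W23.DC
open Pool.Agent.Y882
open Pool.Agent.W23.UB (li PW mem_PW C2 C2_pos sing li_diff_ge)

/-- the number of the primes `p`, `y₁ < p ≤ y₂`, such that no prime below `z` divides `n - p` -/
noncomputable def rough (n : ℕ) (z y₁ y₂ : ℝ) : ℕ :=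
  {p : ℕ | p.Prime ∧ y₁ < (p : ℝ) ∧ (p : ℝ) ≤ y₂ ∧
    ∀ q : ℕ, q.Prime → (q : ℤ) ∣ (n : ℤ) - p → z ≤ (q : ℝ)}.ncard

/-- the number of the primes `p`, `y₁ < p ≤ y₂`, such that `|n - p|` is a prime -/
noncomputable def pairs (n : ℕ) (y₁ y₂ : ℝ) : ℕ :=
  {p : ℕ | p.Prime ∧ y₁ < (p : ℝ) ∧ (p : ℝ) ≤ y₂ ∧ ((n : ℤ) - p).natAbs.Prime}.ncard

theorem li_sub {y₁ y₂ : ℝ} (hy1 : 2 ≤ y₁) (hy12 : y₁ ≤ y₂) :
    (∫ t in y₁..y₂, 1 / Real.log t) = li y₂ - li y₁ := by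
  have hint : ∀ a b : ℝ, 2 ≤ a → 2 ≤ b → IntervalIntegrable (fun t => 1 / Real.log t)
      MeasureTheory.volume a b := by
    intro a b ha hb
    apply ContinuousOn.intervalIntegrable
    intro t ht
    have ht2 : 2 ≤ t := (le_min ha hb).trans ht.1
    have hl : Real.log t ≠ 0 := (Real.log_pos (by linarith)).ne'
    exact (continuousAt_const.div (Real.continuousAt_log (by linarith)) hl).continuousWithinAt
  unfold li
  rw [intervalIntegral.integral_interval_sub_left (hint 2 y₂ le_rfl (by linarith))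
    (hint 2 y₁ le_rfl hy1)]

theorem cz_eq (X n : ℕ) (hX : 2 ≤ X) (ζ : ℝ) (hζ : ζ ≤ 1) (y₁ y₂ : ℝ) :
    cz (PZ X ζ) n y₁ y₂ = rough n ((X : ℝ) ^ ζ) y₁ y₂ := by
  classical
  have hX1 : (1 : ℝ) < X := by exact_mod_cast hX
  unfold cz rough
  rw [← Set.ncard_coe_finset]
  congr 1
  ext p
  rw [mem_coe, mem_filter, mem_PW, Set.mem_setOf_eq]
  constructor
  · rintro ⟨⟨h1, h2, h3⟩, h4⟩
    refine ⟨h1, h2, h3, fun q hq hd => ?_⟩
    by_contra h5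
    push Not at h5
    apply h4 q
    · unfold PZ
      rw [mem_filter, mem_Icc]
      refine ⟨⟨hq.one_lt.le, ?_⟩, hq, (tt_lt X q ζ hX hq.pos).2 h5⟩
      have h6 : (X : ℝ) ^ ζ ≤ X := by
        calc (X : ℝ) ^ ζ ≤ (X : ℝ) ^ (1 : ℝ) := Real.rpow_le_rpow_of_exponent_le hX1.le hζ
          _ = X := Real.rpow_one _
      exact_mod_cast (h5.trans_le h6).le
    · unfold ad
      exact Int.natCast_dvd.1 hd
  · rintro ⟨h1, h2, h3, h4⟩
    refine ⟨⟨h1, h2, h3⟩, fun q hq hd => ?_⟩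
    unfold PZ at hq
    rw [mem_filter] at hq
    have h5 := h4 q hq.2.1 (by
      unfold ad at hd
      exact Int.natCast_dvd.2 hd)
    have h6 := (tt_lt X q ζ hX hq.2.1.pos).1 hq.2.2
    linarith

theorem pairs_le (X n : ℕ) (ζ y₁ y₂ : ℝ) :
    (pairs n y₁ y₂ : ℝ) ≤ rough n ((X : ℝ) ^ ζ) y₁ y₂ + (2 * (X : ℝ) ^ ζ + 1) := by
  classical
  set z := (X : ℝ) ^ ζ with hz
  have hz0 : 0 ≤ z := by positivity
  set Pr : Set ℕ := {p : ℕ | p.Prime ∧ y₁ < (p : ℝ) ∧ (p : ℝ) ≤ y₂ ∧ ((n : ℤ) - p).natAbs.Prime}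
  set Rr : Set ℕ := {p : ℕ | p.Prime ∧ y₁ < (p : ℝ) ∧ (p : ℝ) ≤ y₂ ∧
    ∀ q : ℕ, q.Prime → (q : ℤ) ∣ (n : ℤ) - p → z ≤ (q : ℝ)}
  set Cl : Finset ℕ := Icc (n - ⌊z⌋₊) (n + ⌊z⌋₊) with hCl
  have hfinR : Rr.Finite := by
    apply (Set.finite_Iic ⌊y₂⌋₊).subset
    rintro p ⟨hp, _, h3, _⟩
    exact (Nat.le_floor_iff' hp.ne_zero).2 h3
  have hsub : Pr ⊆ Rr ∪ (Cl : Set ℕ) := by
    rintro p ⟨h1, h2, h3, h4⟩
    by_cases h5 : z ≤ (((n : ℤ) - p).natAbs : ℝ)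
    · left
      refine ⟨h1, h2, h3, fun q hq hd => ?_⟩
      have h6 : q ∣ ((n : ℤ) - p).natAbs := Int.natCast_dvd.1 hd
      rw [(Nat.prime_dvd_prime_iff_eq hq h4).1 h6]
      exact h5
    · right
      push Not at h5
      rw [hCl, mem_coe, mem_Icc]
      have h6 : ((n : ℤ) - p).natAbs ≤ ⌊z⌋₊ := Nat.le_floor h5.le
      omega
  have h1 : Pr.ncard ≤ Rr.ncard + Cl.card := by
    refine (Set.ncard_le_ncard hsub (hfinR.union (Finset.finite_toSet _))).trans ?_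
    refine (Set.ncard_union_le _ _).trans ?_
    rw [Set.ncard_coe_finset]
  have h2 : (Cl.card : ℝ) ≤ 2 * z + 1 := by
    rw [hCl, Nat.card_Icc]
    have h3 : n + ⌊z⌋₊ + 1 - (n - ⌊z⌋₊) ≤ 2 * ⌊z⌋₊ + 1 := by omega
    have h4 : ((n + ⌊z⌋₊ + 1 - (n - ⌊z⌋₊) : ℕ) : ℝ) ≤ 2 * (⌊z⌋₊ : ℝ) + 1 := by exact_mod_cast h3
    have h5 := Nat.floor_le hz0
    linarith
  have h3 : (Pr.ncard : ℝ) ≤ Rr.ncard + Cl.card := by exact_mod_cast h1
  show (Pr.ncard : ℝ) ≤ Rr.ncard + (2 * z + 1)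
  linarith

theorem logX {X : ℕ} (hX : 3 ≤ X) : 1 ≤ Real.log X := by
  have hX3 : (3 : ℝ) ≤ X := by exact_mod_cast hX
  have h6 : Real.log (Real.exp 1) ≤ Real.log X :=
    Real.log_le_log (Real.exp_pos 1) (by linarith [Real.exp_one_lt_d9])
  rwa [Real.log_exp] at h6

/-- all `X ≥ 3` -/
theorem allX (Q : ℕ → ℕ → Prop) (B : ℕ) (C : ℝ) (X₀ : ℕ) (hC : 0 < C)
    (h : ∀ X : ℕ, X₀ ≤ X → ∃ E : Finset ℕ, (E.card : ℝ) ≤ C * Real.log X ^ B ∧
      ∀ n : ℕ, 1 ≤ n → n ≤ X → Q X n → n ∈ E) :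
    ∃ K : ℝ, ∀ X : ℕ, 3 ≤ X → ({n : ℕ | 1 ≤ n ∧ n ≤ X ∧ Q X n}.ncard : ℝ) ≤ K * Real.log X ^ B := by
  refine ⟨C + X₀, ?_⟩
  intro X hX
  have hL := logX hX
  have hLB : 1 ≤ Real.log X ^ B := one_le_pow₀ hL
  have hX0 : (0 : ℝ) ≤ X₀ := Nat.cast_nonneg _
  rcases le_or_gt X₀ X with h1 | h1
  · obtain ⟨E, hE, hEn⟩ := h X h1
    have h2 : {n : ℕ | 1 ≤ n ∧ n ≤ X ∧ Q X n} ⊆ (E : Set ℕ) := by
      rintro n ⟨h3, h4, h5⟩
      exact hEn n h3 h4 h5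
    have h3 := Set.ncard_le_ncard h2 (Finset.finite_toSet _)
    rw [Set.ncard_coe_finset] at h3
    have h4 : ({n : ℕ | 1 ≤ n ∧ n ≤ X ∧ Q X n}.ncard : ℝ) ≤ E.card := by exact_mod_cast h3
    refine (h4.trans hE).trans ?_
    apply mul_le_mul_of_nonneg_right _ (by linarith)
    linarith
  · have h2 : {n : ℕ | 1 ≤ n ∧ n ≤ X ∧ Q X n} ⊆ (Icc 1 X : Finset ℕ) := by
      rintro n ⟨h3, h4, h5⟩
      rw [mem_coe, mem_Icc]
      exact ⟨h3, h4⟩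
    have h3 := Set.ncard_le_ncard h2 (Finset.finite_toSet _)
    rw [Set.ncard_coe_finset, Nat.card_Icc, Nat.add_sub_cancel] at h3
    have h4 : ({n : ℕ | 1 ≤ n ∧ n ≤ X ∧ Q X n}.ncard : ℝ) ≤ X₀ := by
      exact_mod_cast h3.trans h1.le
    calc ({n : ℕ | 1 ≤ n ∧ n ≤ X ∧ Q X n}.ncard : ℝ) ≤ X₀ := h4
      _ ≤ (C + X₀) * 1 := by linarith
      _ ≤ (C + X₀) * Real.log X ^ B := mul_le_mul_of_nonneg_left hLB (by linarith)

/-- rough differences, upper bound -/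
theorem rough_upper (ε : ℝ) (hε : 0 < ε) (A : ℕ) : ∃ (B : ℕ) (K : ℝ), ∀ X : ℕ, 3 ≤ X →
    ({n : ℕ | 1 ≤ n ∧ n ≤ X ∧ Even n ∧ ∃ y₁ y₂ : ℝ, 2 ≤ y₁ ∧ y₁ + X / Real.log X ^ A ≤ y₂ ∧
      y₂ ≤ X ∧ (18 / 5 + ε) * sing n * (∫ t in y₁..y₂, 1 / Real.log t) / Real.log X <
        rough n ((X : ℝ) ^ (5 / 27 : ℝ)) y₁ y₂}.ncard : ℝ) ≤ K * Real.log X ^ B := by
  obtain ⟨B, C, X₀, hC, H⟩ := upper ε hε A
  obtain ⟨K, hK⟩ := allX (fun X n => Even n ∧ ∃ y₁ y₂ : ℝ, 2 ≤ y₁ ∧ y₁ + X / Real.log X ^ A ≤ y₂ ∧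
      y₂ ≤ X ∧ (18 / 5 + ε) * sing n * (∫ t in y₁..y₂, 1 / Real.log t) / Real.log X <
        rough n ((X : ℝ) ^ (5 / 27 : ℝ)) y₁ y₂) B C (max X₀ 2) hC (by
    intro X hX
    obtain ⟨E, hE, HE⟩ := H X ((le_max_left _ _).trans hX)
    refine ⟨E, hE, ?_⟩
    rintro n hn hnX ⟨hev, y₁, y₂, hy1, hy12, hy2, hbad⟩
    by_contra hnE
    have h1 := HE n hn hnX hev hnE y₁ y₂ hy1 hy12 hy2
    have hX1 : (1 : ℝ) < X := by
      have : 2 ≤ X := (le_max_right _ _).trans hX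
      exact_mod_cast this
    have hlog : 0 < Real.log X := Real.log_pos hX1
    have hy12' : y₁ ≤ y₂ := by
      have : 0 ≤ (X : ℝ) / Real.log X ^ A := by positivity
      linarith
    rw [cz_eq X n ((le_max_right _ _).trans hX) _ (by norm_num), ← li_sub hy1 hy12'] at h1
    linarith)
  exact ⟨B, K, hK⟩

/-- rough differences, lower bound -/
theorem rough_lower (v : ℝ) (hv1 : 5 / 36 ≤ v) (hv2 : v < 5 / 18) (ε : ℝ) (hε : 0 < ε) (A : ℕ) :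
    ∃ (B : ℕ) (K : ℝ), ∀ X : ℕ, 3 ≤ X →
    ({n : ℕ | 1 ≤ n ∧ n ≤ X ∧ Even n ∧ ∃ y₁ y₂ : ℝ, 2 ≤ y₁ ∧ y₁ + X / Real.log X ^ A ≤ y₂ ∧
      y₂ ≤ X ∧ rough n ((X : ℝ) ^ v) y₁ y₂ < (18 / 5 * Real.log (5 / (9 * v) - 1) - ε) * sing n *
        (∫ t in y₁..y₂, 1 / Real.log t) / Real.log X}.ncard : ℝ) ≤ K * Real.log X ^ B := by
  obtain ⟨B, C, X₀, hC, H⟩ := lower v hv1 hv2 ε hε A
  obtain ⟨K, hK⟩ := allX (fun X n => Even n ∧ ∃ y₁ y₂ : ℝ, 2 ≤ y₁ ∧ y₁ + X / Real.log X ^ A ≤ y₂ ∧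
      y₂ ≤ X ∧ rough n ((X : ℝ) ^ v) y₁ y₂ < (18 / 5 * Real.log (5 / (9 * v) - 1) - ε) * sing n *
        (∫ t in y₁..y₂, 1 / Real.log t) / Real.log X) B C (max X₀ 2) hC (by
    intro X hX
    obtain ⟨E, hE, HE⟩ := H X ((le_max_left _ _).trans hX)
    refine ⟨E, hE, ?_⟩
    rintro n hn hnX ⟨hev, y₁, y₂, hy1, hy12, hy2, hbad⟩
    by_contra hnE
    have h1 := HE n hn hnX hev hnE y₁ y₂ hy1 hy12 hy2
    have hX1 : (1 : ℝ) < X := by
      have : 2 ≤ X := (le_max_right _ _).trans hX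
      exact_mod_cast this
    have hlog : 0 < Real.log X := Real.log_pos hX1
    have hy12' : y₁ ≤ y₂ := by
      have : 0 ≤ (X : ℝ) / Real.log X ^ A := by positivity
      linarith
    rw [cz_eq X n ((le_max_right _ _).trans hX) _ (by linarith), ← li_sub hy1 hy12'] at h1
    linarith)
  exact ⟨B, K, hK⟩

/-- small errors -/
theorem small_err (A : ℕ) (c : ℝ) (hc : 0 < c) : ∀ᶠ X : ℕ in atTop,
    2 * (X : ℝ) ^ (5 / 27 : ℝ) + 1 ≤ c * (X / Real.log X ^ A / Real.log X / Real.log X) := by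
  have h1 : (fun x : ℝ => Real.log x ^ (A + 2)) =o[atTop] (fun x : ℝ => x ^ (1 / 2 : ℝ)) :=
    isLittleO_log_rpow_rpow_atTop (r := ((A + 2 : ℕ) : ℝ)) (s := 1 / 2) (by norm_num)
      |>.congr_left (by intro x; rw [Real.rpow_natCast])
  have h2 := (h1.comp_tendsto tendsto_natCast_atTop_atTop (k := fun n : ℕ => (n : ℝ))).bound
    (show (0 : ℝ) < c / 3 by positivity)
  filter_upwards [h2, eventually_ge_atTop 3] with X e1 e2
  have hX : (3 : ℝ) ≤ X := by exact_mod_cast e2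
  have hL := logX e2
  simp only [Function.comp] at e1
  rw [Real.norm_of_nonneg (by positivity), Real.norm_of_nonneg (by positivity)] at e1
  have h3 : (1 : ℝ) ≤ (X : ℝ) ^ (1 / 2 : ℝ) := Real.one_le_rpow (by linarith) (by norm_num)
  have h4 : (X : ℝ) ^ (5 / 27 : ℝ) ≤ (X : ℝ) ^ (1 / 2 : ℝ) :=
    Real.rpow_le_rpow_of_exponent_le (by linarith) (by norm_num)
  have h5 : (X : ℝ) ^ (1 / 2 : ℝ) * (X : ℝ) ^ (1 / 2 : ℝ) = X := by
    rw [← Real.rpow_add (by linarith)]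
    norm_num
  have h6 : c * (X / Real.log X ^ A / Real.log X / Real.log X) =
      c * X / Real.log X ^ (A + 2) := by
    rw [pow_add]
    field_simp
  rw [h6, le_div_iff₀ (by positivity)]
  calc (2 * (X : ℝ) ^ (5 / 27 : ℝ) + 1) * Real.log X ^ (A + 2) ≤
      (3 * (X : ℝ) ^ (1 / 2 : ℝ)) * (c / 3 * (X : ℝ) ^ (1 / 2 : ℝ)) := by
        apply mul_le_mul (by linarith) e1 (by positivity) (by positivity)
    _ = c * ((X : ℝ) ^ (1 / 2 : ℝ) * (X : ℝ) ^ (1 / 2 : ℝ)) := by ring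
    _ = c * X := by rw [h5]

/-- the upper bound for prime pairs -/
theorem pairs_upper0 (ε : ℝ) (hε : 0 < ε) (A : ℕ) :
    ∃ (B : ℕ) (C : ℝ) (X₀ : ℕ), 0 < C ∧ ∀ X : ℕ, X₀ ≤ X → ∃ E : Finset ℕ,
      (E.card : ℝ) ≤ C * Real.log X ^ B ∧ ∀ n : ℕ, 1 ≤ n → n ≤ X → Even n → n ∉ E →
      ∀ y₁ y₂ : ℝ, 2 ≤ y₁ → y₁ + X / Real.log X ^ A ≤ y₂ → y₂ ≤ X →
      (pairs n y₁ y₂ : ℝ) ≤ (18 / 5 + ε) * sing n * (li y₂ - li y₁) / Real.log X := by
  obtain ⟨B, C, X₀, hC, H⟩ := upper (ε / 2) (by positivity) A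
  have hC2 := C2_pos
  obtain ⟨X₁, h1⟩ := eventually_atTop.1 (small_err A (ε / 2 * (2 * C2)) (by positivity))
  refine ⟨B, C, max (max X₀ X₁) 3, hC, ?_⟩
  intro X hX
  have hX3' : 3 ≤ X := (le_max_right _ _).trans hX
  have hX3 : (3 : ℝ) ≤ X := by exact_mod_cast hX3'
  have hL := logX hX3'
  obtain ⟨E, hE, HE⟩ := H X (((le_max_left _ _).trans (le_max_left _ _)).trans hX)
  refine ⟨E, hE, ?_⟩
  intro n hn hnX hev hnE y₁ y₂ hy1 hy12 hy2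
  have hXA : 0 ≤ (X : ℝ) / Real.log X ^ A := by positivity
  have hy12' : y₁ ≤ y₂ := by linarith
  have h2 := HE n hn hnX hev hnE y₁ y₂ hy1 hy12 hy2
  rw [cz_eq X n (by omega) _ (by norm_num)] at h2
  have h3 := pairs_le X n (5 / 27) y₁ y₂
  have h4 := h1 X (((le_max_right _ _).trans (le_max_left _ _)).trans hX)
  have hy2pos : 0 < Real.log y₂ := Real.log_pos (by linarith)
  have h5 : X / Real.log X ^ A / Real.log X ≤ li y₂ - li y₁ := by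
    refine le_trans ?_ (li_diff_ge hy1 hy12')
    apply div_le_div₀ (by linarith) (by linarith) hy2pos
    exact Real.log_le_log (by linarith) hy2
  have h6 : ε / 2 * (2 * C2) * (X / Real.log X ^ A / Real.log X / Real.log X) ≤
      ε / 2 * sing n * (li y₂ - li y₁) / Real.log X := by
    rw [mul_div_assoc]
    apply mul_le_mul _ (div_le_div_of_nonneg_right h5 (by linarith)) (by positivity)
    · have := sing_pos n
      positivity
    · exact mul_le_mul_of_nonneg_left (sing_ge n) (by positivity)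
  have h7 : (18 / 5 + ε) * sing n * (li y₂ - li y₁) / Real.log X =
      (18 / 5 + ε / 2) * sing n * (li y₂ - li y₁) / Real.log X +
        ε / 2 * sing n * (li y₂ - li y₁) / Real.log X := by ring
  rw [h7]
  linarith

/-- prime pairs -/
theorem pairs_upper (ε : ℝ) (hε : 0 < ε) (A : ℕ) : ∃ (B : ℕ) (K : ℝ), ∀ X : ℕ, 3 ≤ X →
    ({n : ℕ | 1 ≤ n ∧ n ≤ X ∧ Even n ∧ ∃ y₁ y₂ : ℝ, 2 ≤ y₁ ∧ y₁ + X / Real.log X ^ A ≤ y₂ ∧
      y₂ ≤ X ∧ (18 / 5 + ε) * sing n * (∫ t in y₁..y₂, 1 / Real.log t) / Real.log X <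
        pairs n y₁ y₂}.ncard : ℝ) ≤ K * Real.log X ^ B := by
  obtain ⟨B, C, X₀, hC, H⟩ := pairs_upper0 ε hε A
  obtain ⟨K, hK⟩ := allX (fun X n => Even n ∧ ∃ y₁ y₂ : ℝ, 2 ≤ y₁ ∧ y₁ + X / Real.log X ^ A ≤ y₂ ∧
      y₂ ≤ X ∧ (18 / 5 + ε) * sing n * (∫ t in y₁..y₂, 1 / Real.log t) / Real.log X <
        pairs n y₁ y₂) B C (max X₀ 2) hC (by
    intro X hX
    obtain ⟨E, hE, HE⟩ := H X ((le_max_left _ _).trans hX)
    refine ⟨E, hE, ?_⟩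
    rintro n hn hnX ⟨hev, y₁, y₂, hy1, hy12, hy2, hbad⟩
    by_contra hnE
    have h1 := HE n hn hnX hev hnE y₁ y₂ hy1 hy12 hy2
    have hX1 : (1 : ℝ) < X := by
      have : 2 ≤ X := (le_max_right _ _).trans hX
      exact_mod_cast this
    have hlog : 0 < Real.log X := Real.log_pos hX1
    have hy12' : y₁ ≤ y₂ := by
      have : 0 ≤ (X : ℝ) / Real.log X ^ A := by positivity
      linarith
    rw [← li_sub hy1 hy12'] at h1
    linarith)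
  exact ⟨B, K, hK⟩

/-- the bad numbers for Goldbach's problem -/
def BadG (ε : ℝ) (A : ℕ) (n : ℕ) : Prop :=
  Even n ∧ 4 ≤ n ∧ ∃ y₁ y₂ : ℝ, 2 ≤ y₁ ∧ y₁ + n / Real.log n ^ A ≤ y₂ ∧ y₂ ≤ n ∧
    (18 / 5 + ε) * sing n * (li y₂ - li y₁) / Real.log n < pairs n y₁ y₂

theorem gold (ε : ℝ) (hε : 0 < ε) (A : ℕ) : ∃ (B : ℕ) (K : ℝ), ∀ X : ℕ, 3 ≤ X →
    ({n : ℕ | 1 ≤ n ∧ n ≤ X ∧ BadG ε A n}.ncard : ℝ) ≤ K * Real.log X ^ B := by
  classical
  obtain ⟨B, C, X₀, hC, H⟩ := pairs_upper0 ε hε (A + 1)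
  have tl : Tendsto (fun X : ℕ => Real.log (X : ℝ)) atTop atTop :=
    Real.tendsto_log_atTop.comp tendsto_natCast_atTop_atTop
  obtain ⟨X₁, h1⟩ := eventually_atTop.1 ((tl.eventually_ge_atTop 2).and (eventually_ge_atTop 8))
  obtain ⟨K, hK⟩ := Pool.Agent.W23.UB.dyadic (P := BadG ε A) (C := C) (B := B) (X₀ := max X₀ X₁)
    hC.le (by
    intro X hX
    obtain ⟨e1, e2⟩ := h1 X ((le_max_right _ _).trans hX)
    have hX8 : (8 : ℝ) ≤ X := by exact_mod_cast e2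
    obtain ⟨E, hE, HE⟩ := H X ((le_max_left _ _).trans hX)
    refine le_trans ?_ hE
    have hsub : (Icc 1 X).filter (fun n => X < 2 * n ∧ BadG ε A n) ⊆ E := by
      intro n hn
      rw [mem_filter, mem_Icc] at hn
      obtain ⟨⟨hn1, hnX⟩, hXn, hev, hn4, y₁, y₂, hy1, hy12, hy2, hbad⟩ := hn
      by_contra hnE
      have hn4' : (4 : ℝ) ≤ n := by exact_mod_cast hn4
      have hnXr : (n : ℝ) ≤ X := by exact_mod_cast hnX
      have hXnr : (X : ℝ) ≤ 2 * n := by exact_mod_cast hXn.le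
      have hln0 : 1 ≤ Real.log n := logX (by omega)
      have hlnL : Real.log n ≤ Real.log X := Real.log_le_log (by linarith) hnXr
      have hw : (X : ℝ) / Real.log X ^ (A + 1) ≤ n / Real.log n ^ A := by
        rw [div_le_div_iff₀ (by positivity) (by positivity)]
        have h3 : Real.log n ^ A ≤ Real.log X ^ A := pow_le_pow_left₀ (by linarith) hlnL A
        calc (X : ℝ) * Real.log n ^ A ≤ (2 * n) * Real.log X ^ A :=
              mul_le_mul hXnr h3 (by positivity) (by positivity)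
          _ = n * (Real.log X ^ A * 2) := by ring
          _ ≤ n * (Real.log X ^ A * Real.log X) := by
              apply mul_le_mul_of_nonneg_left _ (by positivity)
              exact mul_le_mul_of_nonneg_left e1 (by positivity)
          _ = n * Real.log X ^ (A + 1) := by rw [pow_succ]
      have hy12' : y₁ ≤ y₂ := by
        have : 0 ≤ (n : ℝ) / Real.log n ^ A := by positivity
        linarith
      have h2 := HE n hn1 hnX hev hnE y₁ y₂ hy1 (by linarith) (by linarith)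
      have hI0 : 0 ≤ li y₂ - li y₁ := by
        refine le_trans ?_ (li_diff_ge hy1 hy12')
        have : 0 ≤ Real.log y₂ := Real.log_nonneg (by linarith)
        exact div_nonneg (by linarith) this
      have hs := sing_pos n
      have h3 : (18 / 5 + ε) * sing n * (li y₂ - li y₁) / Real.log X ≤
          (18 / 5 + ε) * sing n * (li y₂ - li y₁) / Real.log n :=
        div_le_div_of_nonneg_left (by positivity) (by linarith) hlnL
      linarith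
    exact_mod_cast card_le_card hsub)
  refine ⟨B + 1, K, ?_⟩
  intro X hX
  refine le_trans ?_ (hK X hX)
  rw [← Set.ncard_coe_finset]
  have hsub : {n : ℕ | 1 ≤ n ∧ n ≤ X ∧ BadG ε A n} ⊆
      ((Icc 1 X).filter (fun n => BadG ε A n) : Finset ℕ) := by
    rintro n ⟨h3, h4, h5⟩
    rw [mem_coe, mem_filter, mem_Icc]
    exact ⟨⟨h3, h4⟩, h5⟩
  have h3 := Set.ncard_le_ncard hsub (Finset.finite_toSet _)
  exact_mod_cast h3

end Pool.Agent.T2q87.G5
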